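import Pool.Graph.R_seed8.W823.SFD.Dist

set_option autoImplicit false

/-!
# Explosion times in weighted graphs: deterministic facts

`pd e` is the path distance for the weights `e`, `V e x` the explosion time of `x`.
-/

namespace Pool.Agent.KS6_54.SFX

open Pool.Agent.W823.SFD

variable {A : Type*}

/-- The ball of radius `t`. -/
def bl (e : A → A → ENNReal) (x : A) (t : ENNReal) : Set A := {y | pd e x y ≤ t}

/-- The first time at which the ball has at least `n` points. -/
noncomputable def tu (e : A → A → ENNReal) (x : A) (n : ℕ) : ENNReal :=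
  sInf {t : ENNReal | (n : ℕ∞) ≤ (bl e x t).encard}

/-- The explosion time. -/
noncomputable def V (e : A → A → ENNReal) (x : A) : ENNReal := ⨆ n : ℕ, tu e x n

theorem V_le_of_infinite {e : A → A → ENNReal} {x : A} {t : ENNReal} (h : (bl e x t).Infinite) :
    V e x ≤ t :=
  iSup_le fun n => sInf_le (by
    show (n : ℕ∞) ≤ (bl e x t).encard
    rw [h.encard_eq]; exact le_top)

theorem finite_of_lt {e : A → A → ENNReal} {x : A} {t : ENNReal} (h : t < V e x) :
    (bl e x t).Finite := by
  by_contra hc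
  exact absurd (V_le_of_infinite hc) (not_le.2 h)

theorem bl_mono {e : A → A → ENNReal} {x : A} {s t : ENNReal} (h : s ≤ t) : bl e x s ⊆ bl e x t :=
  fun _ hy => le_trans hy h

theorem infinite_of_lt {e : A → A → ENNReal} {x : A} {t : ENNReal} (h : V e x < t) :
    (bl e x t).Infinite := by
  intro hfin
  set n := hfin.toFinset.card with hn
  have h1 : tu e x (n + 1) < t := lt_of_le_of_lt (le_iSup (tu e x) (n + 1)) h
  unfold tu at h1
  obtain ⟨s, hs, hst⟩ := sInf_lt_iff.1 h1
  have h2 := Set.encard_le_encard (bl_mono (e := e) (x := x) hst.le)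
  rw [hfin.encard_eq_coe_toFinset_card, ← hn] at h2
  have h3 : ((n + 1 : ℕ) : ℕ∞) ≤ (n : ℕ∞) := le_trans hs h2
  have h4 : n + 1 ≤ n := by exact_mod_cast h3
  omega

theorem pd_le_edge (e : A → A → ENNReal) (x y : A) : pd e x y ≤ e x y := by
  have := pd_step e x x y
  rwa [pd_self, zero_add] at this

/-- Splitting a path at the first exit from a set. -/
theorem split {e : A → A → ENNReal} {x y : A} {r : ENNReal} (h : pd e x y < r) (P : A → Prop)
    (hx : P x) (hy : ¬ P y) :
    ∃ u w, P u ∧ ¬ P w ∧ pd e x u + e u w + pd e w y < r := by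
  obtain ⟨n, v, h0, hl, hsum⟩ := exists_path h
  have := path_induction v hsum (fun a s => (P a ∧ pd e x a ≤ s) ∨
      ∃ u w, P u ∧ ¬ P w ∧ pd e x u + e u w + pd e w a ≤ s)
    (Or.inl (by rw [h0]; exact ⟨hx, by rw [pd_self]⟩)) (by
    rintro i s hs -
    set a := v i.castSucc
    set b := v i.succ
    rcases hs with ⟨h1, h2⟩ | ⟨u, w, h1, h2, h3⟩
    · by_cases hb : P b
      · left
        exact ⟨hb, (pd_step e x a b).trans (by gcongr)⟩
      · right
        refine ⟨a, b, h1, hb, ?_⟩
        rw [pd_self, add_zero]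
        gcongr
    · right
      refine ⟨u, w, h1, h2, ?_⟩
      calc pd e x u + e u w + pd e w b ≤ pd e x u + e u w + (pd e w a + e a b) := by
            gcongr; exact pd_step e w a b
        _ = (pd e x u + e u w + pd e w a) + e a b := by ring
        _ ≤ s + e a b := by gcongr) (Fin.last n)
  obtain ⟨s, hs, hq⟩ := this
  rw [hl] at hq
  rcases hq with ⟨h1, -⟩ | ⟨u, w, h1, h2, h3⟩
  · exact absurd h1 hy
  · exact ⟨u, w, h1, h2, lt_of_le_of_lt h3 hs⟩

theorem V_tri (e : A → A → ENNReal) (x y : A) : V e x ≤ pd e x y + V e y := by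
  by_contra hcon
  push Not at hcon
  obtain ⟨c, h1, h2⟩ := exists_between hcon
  have h3 : V e y < c - pd e x y := by
    rw [lt_tsub_iff_left]; exact h1
  have h4 : pd e x y ≤ c := le_trans le_self_add h1.le
  have h5 : bl e y (c - pd e x y) ⊆ bl e x c := by
    intro z hz
    calc pd e x z ≤ pd e x y + pd e y z := pd_triangle e x y z
      _ ≤ pd e x y + (c - pd e x y) := by gcongr; exact hz
      _ = c := add_tsub_cancel_of_le h4
  exact absurd (V_le_of_infinite ((infinite_of_lt h3).mono h5)) (not_le.2 h2)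

theorem V_mono {e e' : A → A → ENNReal} (h : ∀ a b, e' a b ≤ e a b) (x : A) : V e' x ≤ V e x := by
  by_contra hcon
  push Not at hcon
  obtain ⟨c, h1, h2⟩ := exists_between hcon
  have h5 : bl e x c ⊆ bl e' x c := fun z hz => (pd_mono h x z).trans hz
  exact absurd (V_le_of_infinite ((infinite_of_lt h1).mono h5)) (not_le.2 h2)

/-- Local finiteness. -/
def LF (e : A → A → ENNReal) : Prop := ∀ v, {w | e v w ≠ ⊤}.Finite

/-- The outer neighbours of a finite ball. -/
theorem exit_finite {e : A → A → ENNReal} (hLF : LF e) {K : Set A} (hK : K.Finite) :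
    {w | ∃ u ∈ K, e u w ≠ ⊤}.Finite := by
  have : {w | ∃ u ∈ K, e u w ≠ ⊤} = ⋃ u ∈ K, {w | e u w ≠ ⊤} := by
    ext w; simp
  rw [this]
  exact hK.biUnion fun u _ => hLF u

/-- There are points with small explosion times. -/
theorem exists_small {e : A → A → ENNReal} (hLF : LF e) {x : A} {η : ENNReal} (hη : 0 < η)
    (hη2 : η < V e x) (hV : V e x ≠ ⊤) : ∃ w, w ≠ x ∧ V e w ≤ η := by
  have hηt : η ≠ ⊤ := ne_top_of_lt hη2
  have hVpos : 0 < V e x := hη.trans hη2
  have h2 : η / 2 ≠ 0 := by simp [hη.ne']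
  have h2t : η / 2 ≠ ⊤ := by
    intro h
    rw [ENNReal.div_eq_top] at h
    rcases h with h | h
    · exact absurd h.2 (by norm_num)
    · exact hηt h.1
  set s := V e x - η / 2 with hs
  have hsV : s < V e x := ENNReal.sub_lt_self hV hVpos.ne' h2
  set K := bl e x s with hK
  have hKf : K.Finite := finite_of_lt hsV
  have hxK : x ∈ K := by
    show pd e x x ≤ s
    rw [pd_self]; exact zero_le
  set t := V e x + η / 4 with ht
  have h4 : η / 4 ≠ 0 := by simp [hη.ne']
  have htV : V e x < t := ENNReal.lt_add_right hV h4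
  have hinf := infinite_of_lt htV
  set N := {w | w ∉ K ∧ ∃ u ∈ K, e u w ≠ ⊤} with hN
  have hNf : N.Finite := (exit_finite hLF hKf).subset fun w hw => hw.2
  have hhalf : η / 2 ≤ η := ENNReal.half_le_self
  have hsub : bl e x t \ K ⊆ ⋃ w ∈ N, bl e w η := by
    rintro y ⟨hy, hyK⟩
    have hyt : pd e x y < V e x + η / 2 := by
      refine lt_of_le_of_lt hy ?_
      rw [ht]
      apply ENNReal.add_lt_add_left hV
      rw [ENNReal.div_lt_iff (Or.inl (by norm_num)) (Or.inl (by norm_num))]
      calc η < η + η := ENNReal.lt_add_right hηt hη.ne'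
        _ = η / 2 * 4 := by
            have : η / 2 + η / 2 = η := ENNReal.add_halves η
            calc η + η = (η / 2 + η / 2) + (η / 2 + η / 2) := by rw [this]
              _ = η / 2 * 4 := by ring
    obtain ⟨u, w, hu, hw, huw⟩ := split hyt (fun a => a ∈ K) hxK hyK
    have hne : e u w ≠ ⊤ := by
      intro h
      rw [h] at huw
      simp at huw
    simp only [Set.mem_iUnion]
    refine ⟨w, ⟨hw, u, hu, hne⟩, ?_⟩
    show pd e w y ≤ η
    by_contra hc
    push Not at hc
    have h6 : s < pd e x w := not_le.1 hw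
    have h7 : pd e x w ≤ pd e x u + e u w := pd_step e x u w
    have h8 : V e x + η / 2 ≤ pd e x u + e u w + pd e w y := by
      calc V e x + η / 2 = (s + η / 2) + η / 2 := by
            rw [hs, tsub_add_cancel_of_le]
            exact hhalf.trans hη2.le
        _ = s + η := by rw [add_assoc, ENNReal.add_halves]
        _ ≤ pd e x u + e u w + pd e w y := add_le_add (h6.le.trans h7) hc.le
    exact absurd huw (not_lt.2 h8)
  have hinf2 : (bl e x t \ K).Infinite := hinf.sdiff hKf
  have : ∃ w ∈ N, (bl e w η).Infinite := by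
    by_contra hc
    push Not at hc
    refine hinf2 ((hNf.biUnion fun w hw => ?_).subset hsub)
    exact hc w hw
  obtain ⟨w, hw, hwi⟩ := this
  refine ⟨w, ?_, V_le_of_infinite hwi⟩
  rintro rfl
  exact hw.1 hxK

end Pool.Agent.KS6_54.SFX
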