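import Pool.Graph.R_seed8.W823.SFD.Final

set_option autoImplicit false

/-!
# Scale-free percolation is locally finite (general laws of the vertex-weights)
-/

namespace Pool.Agent.KS6_54.SFX

open Pool.Agent.W823.SFD Pool.Agent.W823.SFP MeasureTheory Filter ProbabilityTheory

variable {d : ℕ} {α lam β : ℝ} {μW μL : Measure ℝ}

/-- The event that the mark of `{u, v}` is small compared with the weight of `v`. -/
def FF (α lam T : ℝ) (u v : Site d) : Set (Conf d) :=
  {ω | 1 ≤ wt ω v ∧ mark ω u v < lam * T / nrm (u - v) ^ α * wt ω v}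

theorem FF_bound (hlam : 0 < lam) (hW : IsProbabilityMeasure μW) (hL : IsProbabilityMeasure μL)
    {T : ℝ} (hT : 1 ≤ T) {κ : ℝ} (hκ0 : 0 < κ) (hκ1 : κ ≤ 1) (u v : Site d)
    (huv : 1 < nrm (u - v)) :
    law d μW μL (FF α lam T u v) ≤ ENNReal.ofReal ((lam * T) ^ κ) * mom μW κ *
      ENNReal.ofReal (nrm (u - v) ^ (-(α * κ))) := by
  have hpr := prob_marg (d := d) hW hL
  have hnr : 0 < nrm (u - v) := by linarith
  have hna : 0 < nrm (u - v) ^ α := Real.rpow_pos_of_pos hnr _
  have hpow : (1 / nrm (u - v) ^ α) ^ κ = nrm (u - v) ^ (-(α * κ)) := by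
    rw [one_div, ← Real.rpow_neg hnr.le, ← Real.rpow_mul hnr.le]
    congr 1; ring
  let a : ℝ := lam * T / nrm (u - v) ^ α
  have ha : 0 ≤ a := by positivity
  let B : Set (ℝ × ℝ) := {p | 1 ≤ p.1 ∧ p.2 < a * p.1}
  have hB : MeasurableSet B :=
    (measurableSet_le measurable_const measurable_fst).inter
      (measurableSet_lt measurable_snd (by fun_prop))
  have e := Measure.infinitePi_map_eval_prod (P := marg (d := d) μW μL)
    (i := Sum.inl v) (j := Sum.inr (Sum.inl s(u, v))) (by simp)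
  have e2 : law d μW μL (FF α lam T u v) =
      (μW.prod ((volume : Measure ℝ).restrict (Set.Icc 0 1))) B := by
    have h1 : marg (d := d) μW μL (Sum.inr (Sum.inl s(u, v))) =
      (volume : Measure ℝ).restrict (Set.Icc 0 1) := rfl
    have h2 : marg (d := d) μW μL (Sum.inl v) = μW := rfl
    rw [h1, h2] at e
    rw [← e, Measure.map_apply (by fun_prop) hB]
    rfl
  rw [e2, Measure.prod_apply hB]
  have e3 : ∀ w : ℝ, (volume : Measure ℝ).restrict (Set.Icc 0 1) (Prod.mk w ⁻¹' B) ≤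
      ENNReal.ofReal (a ^ κ) * ENNReal.ofReal (w ^ κ) := by
    intro w
    by_cases hw : 1 ≤ w
    · have : Prod.mk w ⁻¹' B = Set.Iio (a * w) := by
        ext m
        simp [B, hw]
      rw [this]
      refine (unif_le hκ0 hκ1 (by positivity)).trans ?_
      rw [Real.mul_rpow ha (by linarith), ENNReal.ofReal_mul (by positivity)]
    · have : Prod.mk w ⁻¹' B = ∅ := by
        ext m
        simp [B, hw]
      rw [this, measure_empty]
      exact zero_le
  refine (lintegral_mono e3).trans ?_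
  rw [lintegral_const_mul' _ _ ENNReal.ofReal_ne_top]
  have e4 : a ^ κ = (lam * T) ^ κ * nrm (u - v) ^ (-(α * κ)) := by
    simp only [a]
    rw [div_eq_mul_one_div, Real.mul_rpow (by positivity) (by positivity), hpow]
  rw [e4, ENNReal.ofReal_mul (by positivity)]
  apply le_of_eq
  unfold mom
  ring

theorem exists_kappa (h : HypG d α lam β μW μL) : ∃ κ ε : ℝ, 0 < κ ∧ κ ≤ 1 ∧ κ < β ∧ 0 < ε ∧
    ε ≤ d ∧ d + 2 * ε ≤ α * κ := by
  have ha := h.apos
  have hd := h.dpos
  have hγ1 := h.hγ1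
  have hα := h.hα
  have h1 : (d : ℝ) / α < β := by
    rw [div_lt_iff₀ ha]; linarith
  have h2 : (d : ℝ) / α < 1 := (div_lt_one ha).2 hα
  have h0 : 0 < (d : ℝ) / α := by positivity
  set κ := min 1 ((β + d / α) / 2) with hκ
  have h3 : (d : ℝ) / α < κ := lt_min h2 (by linarith)
  have h4 : (d : ℝ) < α * κ := by
    rw [div_lt_iff₀ ha] at h3; linarith
  refine ⟨κ, min d ((α * κ - d) / 2), h0.trans h3, min_le_left _ _,
    lt_of_le_of_lt (min_le_right _ _) (by linarith), lt_min (by linarith) (by linarith),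
    min_le_left _ _, ?_⟩
  have := min_le_right (d : ℝ) ((α * κ - d) / 2)
  linarith

/-- Almost surely the graph is locally finite. -/
theorem ae_locfin (h : HypG d α lam β μW μL) : ∀ᵐ ω ∂(law d μW μL),
    ∀ x : Site d, {y | Pool.Agent.W823.SFP.Joined α lam ω x y}.Finite := by
  obtain ⟨κ, ε, hκ0, hκ1, hκβ, hε, hεd, hκ⟩ := exists_kappa h
  have hm : mom μW κ ≠ ⊤ := h.mo κ hκ0 hκβ
  have key : ∀ (x : Site d) (T : ℕ), ∀ᵐ ω ∂(law d μW μL),
      {v | 2 ≤ nrm (x - v) ∧ ω ∈ FF α lam (T + 1) x v}.Finite := by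
    intro x T
    have hT : (1 : ℝ) ≤ (T : ℝ) + 1 := by linarith [(Nat.cast_nonneg T : (0 : ℝ) ≤ T)]
    have hsum : ∑' v : Site d, law d μW μL {ω | 2 ≤ nrm (x - v) ∧ ω ∈ FF α lam (T + 1) x v} ≠ ⊤ := by
      have hle : ∀ v : Site d, law d μW μL {ω | 2 ≤ nrm (x - v) ∧ ω ∈ FF α lam (T + 1) x v} ≤
          (ENNReal.ofReal ((lam * (T + 1)) ^ κ) * mom μW κ) *
          (if 2 ≤ nrm (x - v) then ENNReal.ofReal (nrm (x - v) ^ (-(α * κ))) else 0) := by
        intro v
        by_cases hv : 2 ≤ nrm (x - v)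
        · rw [if_pos hv]
          refine (measure_mono (fun ω hω => hω.2)).trans
            (FF_bound h.hlam h.probW h.probL hT hκ0 hκ1 x v (by linarith))
        · have : {ω : Conf d | 2 ≤ nrm (x - v) ∧ ω ∈ FF α lam (T + 1) x v} = ∅ := by
            ext ω; simp [hv]
          rw [this, measure_empty]
          exact zero_le
      refine ne_top_of_le_ne_top ?_ (ENNReal.tsum_le_tsum hle)
      rw [ENNReal.tsum_mul_left]
      refine ENNReal.mul_ne_top (ENNReal.mul_ne_top ENNReal.ofReal_ne_top hm) ?_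
      exact ne_top_of_le_ne_top (ENNReal.mul_ne_top ENNReal.ofReal_ne_top ENNReal.ofReal_ne_top)
        (long_sum (by norm_num) hε hεd hκ x)
    exact ae_finite_setOfPred_mem hsum
  have key2 : ∀ᵐ ω ∂(law d μW μL), ∀ (x : Site d) (T : ℕ),
      {v | 2 ≤ nrm (x - v) ∧ ω ∈ FF α lam (T + 1) x v}.Finite := by
    rw [ae_all_iff]; intro x
    rw [ae_all_iff]; intro T
    exact key x T
  filter_upwards [key2, ae_one_le' h.probW h.probL h.one] with ω hω hw x
  obtain ⟨T, hT⟩ := exists_nat_gt (wt ω x)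
  refine (((bx x 2).finite_toSet).union (hω x T)).subset fun v hv => ?_
  by_cases h2 : 2 ≤ nrm (x - v)
  · right
    refine ⟨h2, hw v, ?_⟩
    have h3 := joined_mark hv (by linarith)
    refine lt_of_lt_of_le h3 ?_
    have hnr : 0 < nrm (x - v) := by linarith
    have hna : 0 < nrm (x - v) ^ α := Real.rpow_pos_of_pos hnr _
    rw [div_mul_eq_mul_div]
    apply div_le_div_of_nonneg_right _ hna.le
    have h4 := hw v
    have h5 := h.hlam
    have h6 : wt ω x ≤ (T : ℝ) + 1 := by linarith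
    gcongr
  · left
    push Not at h2
    refine mem_bx_of_nrm ?_
    rw [nrm_sub_comm]
    push_cast
    exact h2.le

end Pool.Agent.KS6_54.SFX
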