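import Pool.Agent.KS6_54.SFX.Res
import Pool.Agent.KS6_54.SFX.Loc

set_option autoImplicit false

/-!
# Explosion times are finite: deterministic part, quantiles
-/

namespace Pool.Agent.KS6_54.SFX

open Pool.Agent.W823.SFD Pool.Agent.W823.SFP MeasureTheory Filter Topology

section Det

variable {A : Type*}

theorem V_le_chain {e : A → A → ENNReal} (z : ℕ → A) (hz : (Set.range z).Infinite) :
    V e (z 0) ≤ ∑' n, e (z n) (z (n + 1)) := by
  apply V_le_of_infinite
  refine hz.mono ?_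
  rintro _ ⟨n, rfl⟩
  show pd e (z 0) (z n) ≤ _
  have h1 : ∀ n, pd e (z 0) (z n) ≤ ∑ k ∈ Finset.range n, e (z k) (z (k + 1)) := by
    intro n
    induction n with
    | zero => rw [pd_self]; exact zero_le
    | succ n ih =>
      rw [Finset.sum_range_succ]
      exact (pd_step e _ _ _).trans (by gcongr)
  exact (h1 n).trans (ENNReal.sum_le_tsum _)

theorem exists_chain {P : ℕ → A → Prop} {R : ℕ → A → A → Prop} (h0 : ∃ z, P 0 z)
    (hs : ∀ n z, P n z → ∃ z', P (n + 1) z' ∧ R n z z') :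
    ∃ f : ℕ → A, ∀ n, P n (f n) ∧ R n (f n) (f (n + 1)) := by
  classical
  obtain ⟨z0, hz0⟩ := h0
  choose F hF1 hF2 using hs
  let g : (n : ℕ) → {z : A // P n z} := fun n =>
    Nat.rec ⟨z0, hz0⟩ (fun n z => ⟨F n z.1 z.2, hF1 n z.1 z.2⟩) n
  exact ⟨fun n => (g n).1, fun n => ⟨(g n).2, hF2 n (g n).1 (g n).2⟩⟩

end Det

variable {d : ℕ} {α lam β : ℝ} {μW μL : Measure ℝ}

theorem pd_add_ne_top {e : Site d → Site d → ENNReal} {x y z : Site d} (h1 : pd e x y ≠ ⊤)
    (h2 : pd e y z ≠ ⊤) : pd e x z ≠ ⊤ := by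
  intro h
  have h3 := pd_triangle e x y z
  rw [h, top_le_iff, ENNReal.add_eq_top] at h3
  rcases h3 with h3 | h3
  · exact h1 h3
  · exact h2 h3

theorem nrm_single (i : Fin d) : nrm (Pi.single i 1 : Site d) = 1 := by
  unfold nrm
  rw [Finset.sum_eq_single i]
  · simp
  · intro j _ hj; simp [Pi.single_eq_of_ne hj]
  · simp

theorem pd_near {ω : Conf d} {y y' : Site d} (h : nrm (y - y') = 1) :
    pd (eo α lam ω) y y' ≠ ⊤ := by
  intro hc
  have h1 := pd_le_edge (eo α lam ω) y y'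
  rw [hc, top_le_iff, eo_of_joined (Or.inl h)] at h1
  exact ENNReal.ofReal_ne_top h1

theorem pd_unit {ω : Conf d} (x : Site d) (i : Fin d) (k : ℤ) :
    pd (eo α lam ω) x (x + Pi.single i k) ≠ ⊤ := by
  induction k using Int.induction_on with
  | zero => rw [Pi.single_zero, add_zero, pd_self]; exact ENNReal.zero_ne_top
  | succ k ih =>
    have h1 : x + Pi.single i (k : ℤ) - (x + Pi.single i ((k : ℤ) + 1)) = -Pi.single i 1 := by
      rw [Pi.single_add]; abel
    have h2 : nrm (x + Pi.single i (k : ℤ) - (x + Pi.single i ((k : ℤ) + 1))) = 1 := by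
      rw [h1, nrm_neg, nrm_single]
    exact pd_add_ne_top ih (pd_near h2)
  | pred k ih =>
    have h1 : x + Pi.single i (-(k : ℤ)) - (x + Pi.single i (-(k : ℤ) - 1)) = Pi.single i 1 := by
      rw [Pi.single_sub]; abel
    have h2 : nrm (x + Pi.single i (-(k : ℤ)) - (x + Pi.single i (-(k : ℤ) - 1))) = 1 := by
      rw [h1, nrm_single]
    exact pd_add_ne_top ih (pd_near h2)

theorem pd_ne_top {ω : Conf d} (x y : Site d) : pd (eo α lam ω) x y ≠ ⊤ := by
  classical
  have key : ∀ s : Finset (Fin d),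
      pd (eo α lam ω) x (x + ∑ i ∈ s, Pi.single i ((y - x) i)) ≠ ⊤ := by
    intro s
    induction s using Finset.induction_on with
    | empty => rw [Finset.sum_empty, add_zero, pd_self]; exact ENNReal.zero_ne_top
    | insert i s hi ih =>
      rw [Finset.sum_insert hi, add_comm (Pi.single i _), ← add_assoc]
      exact pd_add_ne_top ih (pd_unit _ i _)
  have := key Finset.univ
  rwa [Finset.univ_sum_single, add_sub_cancel] at this

/-- If one explosion time is finite, all are. -/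
theorem V_ne_top_all {ω : Conf d} {u : Site d} (hu : V (eo α lam ω) u ≠ ⊤) (x : Site d) :
    V (eo α lam ω) x ≠ ⊤ :=
  ne_top_of_le_ne_top (ENNReal.add_ne_top.2 ⟨pd_ne_top x u, hu⟩) (V_tri _ x u)

/-! ### Quantiles -/

theorem quantile_set_nonempty [IsProbabilityMeasure μL] {u : ℝ} (hu : u < 1) :
    {t : ℝ | u ≤ (μL (Set.Iic t)).toReal}.Nonempty := by
  have h1 := tendsto_measure_Iic_atTop μL
  rw [measure_univ] at h1
  have h2 : Tendsto (fun t => (μL (Set.Iic t)).toReal) atTop (𝓝 1) := by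
    have := (ENNReal.tendsto_toReal (a := 1) ENNReal.one_ne_top).comp h1
    rw [ENNReal.toReal_one] at this
    exact this
  obtain ⟨t, ht⟩ := (h2.eventually (lt_mem_nhds hu)).exists
  exact ⟨t, ht.le⟩

theorem quantile_set_bdd (hpos : μL (Set.Iio 0) = 0) {u : ℝ} (hu : 0 < u) :
    {t : ℝ | u ≤ (μL (Set.Iic t)).toReal} ⊆ Set.Ici 0 := by
  intro t ht
  by_contra hlt
  rw [Set.mem_Ici, not_le] at hlt
  have h3 : μL (Set.Iic t) = 0 := measure_mono_null (fun x hx => lt_of_le_of_lt hx hlt) hpos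
  rw [Set.mem_ofPred_eq, h3, ENNReal.toReal_zero] at ht
  linarith

theorem quantile_mono [IsProbabilityMeasure μL] (hpos : μL (Set.Iio 0) = 0) {u u' : ℝ}
    (hu : 0 < u) (huu : u ≤ u') (hu' : u' < 1) : quantile μL u ≤ quantile μL u' := by
  unfold quantile
  refine csInf_le_csInf ⟨0, fun t ht => quantile_set_bdd hpos hu ht⟩ (quantile_set_nonempty hu') ?_
  exact fun t ht => huu.trans ht

theorem le_measure_quantile [IsProbabilityMeasure μL] {u η : ℝ}
    (hu' : u < 1) (hη : 0 < η) :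
    ENNReal.ofReal u ≤ μL (Set.Iic (quantile μL u + η)) := by
  obtain ⟨t, ht, htq⟩ := exists_lt_of_csInf_lt (quantile_set_nonempty (μL := μL) hu')
    (show sInf {t : ℝ | u ≤ (μL (Set.Iic t)).toReal} < quantile μL u + η by
      unfold quantile; linarith)
  calc ENNReal.ofReal u ≤ ENNReal.ofReal (μL (Set.Iic t)).toReal := ENNReal.ofReal_le_ofReal ht
    _ = μL (Set.Iic t) := ENNReal.ofReal_toReal (measure_ne_top _ _)
    _ ≤ _ := measure_mono (Set.Iic_subset_Iic.2 htq.le)

/-- The sum over the scales. -/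
theorem sum_quantile [IsProbabilityMeasure μL] (hpos : μL (Set.Iio 0) = 0) (hI : IL μL < ⊤)
    {s c : ℝ} (hs : 1 < s) (hc : s ≤ c) :
    ∑' j : ℕ, ENNReal.ofReal (quantile μL (Real.exp (-(c * s ^ j)))) < ⊤ := by
  have hs0 : 0 < s := by linarith
  have hc0 : 0 < c := by linarith
  have hls : 0 < Real.log s := Real.log_pos hs
  have hlc : Real.log s ≤ Real.log c := Real.log_le_log hs0 hc
  let Q : ℝ → ENNReal := fun y => ENNReal.ofReal (quantile μL (Real.exp (-Real.exp y)))
  let I : ℕ → Set ℝ := fun j =>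
    Set.Ioc (Real.log c + ((j : ℝ) - 1) * Real.log s) (Real.log c + (j : ℝ) * Real.log s)
  have hanti : ∀ y y' : ℝ, y ≤ y' → Q y' ≤ Q y := by
    intro y y' h
    apply ENNReal.ofReal_le_ofReal
    refine quantile_mono hpos (Real.exp_pos _) ?_ ?_
    · exact Real.exp_le_exp.2 (neg_le_neg (Real.exp_le_exp.2 h))
    · have := Real.exp_lt_exp.2 (show -Real.exp y < 0 by linarith [Real.exp_pos y])
      rwa [Real.exp_zero] at this
  have hval : ∀ j : ℕ, Q (Real.log c + (j : ℝ) * Real.log s) =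
      ENNReal.ofReal (quantile μL (Real.exp (-(c * s ^ j)))) := by
    intro j
    simp only [Q]
    congr 3
    rw [Real.exp_add, Real.exp_log hc0, mul_comm (j : ℝ), Real.exp_mul, Real.exp_log hs0,
      Real.rpow_natCast]
  have hI1 : ∀ j : ℕ, Q (Real.log c + (j : ℝ) * Real.log s) * ENNReal.ofReal (Real.log s) ≤
      ∫⁻ y in I j, Q y := by
    intro j
    have hvol : volume (I j) = ENNReal.ofReal (Real.log s) := by
      simp only [I, Real.volume_Ioc]
      congr 1; ring
    rw [← hvol, ← setLIntegral_const]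
    refine setLIntegral_mono_ae' measurableSet_Ioc ?_
    filter_upwards with y hy
    exact hanti _ _ hy.2
  have hdisj : Pairwise (Function.onFun Disjoint I) := by
    intro i j hij
    rw [Function.onFun, Set.disjoint_left]
    rintro y ⟨h1, h2⟩ ⟨h3, h4⟩
    rcases lt_or_gt_of_ne hij with h | h
    · have h5 : (i : ℝ) ≤ (j : ℝ) - 1 := by
        have : (i : ℝ) + 1 ≤ (j : ℝ) := by exact_mod_cast h
        linarith
      nlinarith
    · have h5 : (j : ℝ) ≤ (i : ℝ) - 1 := by
        have : (j : ℝ) + 1 ≤ (i : ℝ) := by exact_mod_cast h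
        linarith
      nlinarith
  have h2 : ∑' j : ℕ, ∫⁻ y in I j, Q y ≤ IL μL := by
    rw [← lintegral_iUnion (fun j => measurableSet_Ioc) hdisj]
    unfold IL
    refine lintegral_mono_set ?_
    intro y hy
    obtain ⟨j, hj1, -⟩ := Set.mem_iUnion.1 hy
    rw [Set.mem_Ioi]
    refine lt_of_le_of_lt ?_ hj1
    have : (0 : ℝ) ≤ j := Nat.cast_nonneg j
    nlinarith
  have h3 : (∑' j : ℕ, ENNReal.ofReal (quantile μL (Real.exp (-(c * s ^ j))))) *
      ENNReal.ofReal (Real.log s) ≤ IL μL := by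
    rw [← ENNReal.tsum_mul_right]
    refine (ENNReal.tsum_le_tsum fun j => ?_).trans h2
    rw [← hval]
    exact hI1 j
  by_contra hcon
  rw [not_lt, top_le_iff] at hcon
  rw [hcon, ENNReal.top_mul (ENNReal.ofReal_pos.2 hls).ne'] at h3
  exact absurd hI (not_lt.2 h3)

end Pool.Agent.KS6_54.SFX
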