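import Pool.Agent.KS6_54.SFX.Exp1

set_option autoImplicit false

/-!
# Explosion times are finite: probabilistic part
-/

namespace Pool.Agent.KS6_54.SFX

open Pool.Agent.W823.SFD Pool.Agent.W823.SFP MeasureTheory Filter Topology

variable {d : ℕ} {α lam β : ℝ} {μW μL : Measure ℝ}

/-- The probability that a search fails, if the edge-weights may be as small as `δ` with
probability at least `S ^ (-k1/2)`. -/
theorem search_bound (h : HypG d α lam β μW μL) :
    ∃ c : ℝ, 0 < c ∧ ∃ T0 : ℝ, 1 ≤ T0 ∧ ∀ S, T0 ≤ S → ∀ (u : Site d) (δ : ℝ),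
      ENNReal.ofReal (S ^ (-(k1 d α β / 2))) ≤ μL (Set.Iic δ) →
      law d μW μL (SB d α lam (ss d α β) δ S u) ≤
        ENNReal.ofReal (Real.exp (-(c * S ^ (k1 d α β / 2)))) := by
  set s := ss d α β with hs
  have hp := h.p1_pos
  have hs1 := one_lt_ss h
  have he := et_pos h
  have hb := h.hβ
  have ha := h.apos
  have hd := h.dpos
  have hk := k1_pos h
  set a : ℝ := (1 + s) / α with ha'
  have ha0 : 0 < a := by positivity
  refine ⟨p1 d α lam / 2 ^ d, by positivity, ?_⟩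
  obtain ⟨T1, hT1⟩ := eventually_atTop.1 (h.lo (et d α β) he)
  refine ⟨max 1 T1, le_max_left _ _, ?_⟩
  intro S hS u δ hL
  have hS1 : 1 ≤ S := (le_max_left _ _).trans hS
  have hS0 : 0 < S := by linarith
  have hSs : T1 ≤ S ^ s := by
    refine ((le_max_right _ _).trans hS).trans ?_
    calc S = S ^ (1 : ℝ) := (Real.rpow_one S).symm
      _ ≤ S ^ s := Real.rpow_le_rpow_of_exponent_le hS1 hs1.le
  have hW := hT1 (S ^ s) hSs
  set qW : ℝ := (S ^ s) ^ (-(β + et d α β)) with hqW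
  have hqW0 : 0 < qW := by positivity
  have hqWe : qW = S ^ (-(s * (β + et d α β))) := by
    rw [hqW, ← Real.rpow_mul hS0.le]; congr 1; ring
  have hSa1 : 1 ≤ S ^ a := Real.one_le_rpow hS1 ha0.le
  have hsd : S ^ a / 2 ≤ (sd α s S : ℝ) := by
    have h1 : S ^ a < (sd α s S : ℝ) + 1 := Nat.lt_floor_add_one (S ^ a)
    have h2 : 1 ≤ sd α s S := Nat.le_floor (by exact_mod_cast hSa1)
    have h3 : (1 : ℝ) ≤ (sd α s S : ℝ) := by exact_mod_cast h2
    linarith
  have hsdd : S ^ (a * d) / 2 ^ d ≤ (sd α s S : ℝ) ^ d := by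
    calc S ^ (a * d) / 2 ^ d = (S ^ a / 2) ^ d := by
          rw [div_pow, Real.rpow_mul hS0.le, Real.rpow_natCast]
      _ ≤ _ := by gcongr
  have hprod : S ^ (a * d) * qW = S ^ k1 d α β := by
    rw [hqWe, ← Real.rpow_add hS0]
    congr 1
  have hprod2 : S ^ k1 d α β * S ^ (-(k1 d α β / 2)) = S ^ (k1 d α β / 2) := by
    rw [← Real.rpow_add hS0]
    congr 1
    ring
  refine (SB_prob h u hqW0.le (by positivity) hW hL).trans ?_
  apply ENNReal.ofReal_le_ofReal
  apply Real.exp_le_exp.2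
  apply neg_le_neg
  calc p1 d α lam / 2 ^ d * S ^ (k1 d α β / 2)
      = S ^ (a * d) / 2 ^ d * (qW * p1 d α lam * S ^ (-(k1 d α β / 2))) := by
        rw [← hprod2, ← hprod]; ring
    _ ≤ _ := by gcongr

/-- The scales. -/
noncomputable def sc (d : ℕ) (α β T : ℝ) (j : ℕ) : ℝ := T ^ (ss d α β ^ j)

/-- The bounds for the edge-weights at the scales. -/
noncomputable def dl (d : ℕ) (α β : ℝ) (μL : Measure ℝ) (T : ℝ) (j : ℕ) : ℝ :=
  quantile μL (sc d α β T j ^ (-(k1 d α β / 2))) + (1 / 2) ^ j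

/-- The radii. -/
noncomputable def rad (d : ℕ) (α β T : ℝ) (j : ℕ) : ℝ :=
  (1 + j * d) * sc d α β T j ^ ((1 + ss d α β) / α)

/-- The bad event: some search fails. -/
def BadA (d : ℕ) (α lam β : ℝ) (μL : Measure ℝ) (T : ℝ) : Set (Conf d) :=
  ⋃ j : ℕ, ⋃ u ∈ bx (0 : Site d) ⌈rad d α β T j⌉₊,
    SB d α lam (ss d α β) (dl d α β μL T j) (sc d α β T j) u

theorem sc_ge (h : HypG d α lam β μW μL) {T : ℝ} (hT : 1 ≤ T) (hT2 : 2 ≤ T ^ (ss d α β - 1))
    (j : ℕ) : T * 2 ^ j ≤ sc d α β T j := by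
  have hs1 := one_lt_ss h
  have h1 : 1 + (j : ℝ) * (ss d α β - 1) ≤ ss d α β ^ j := by
    have := one_add_mul_le_pow (show (-2 : ℝ) ≤ ss d α β - 1 by linarith) j
    simpa using this
  unfold sc
  calc T * 2 ^ j ≤ T * (T ^ (ss d α β - 1)) ^ j := by gcongr
    _ = T ^ (1 + (j : ℝ) * (ss d α β - 1)) := by
        rw [Real.rpow_add (by linarith), Real.rpow_one, ← Real.rpow_natCast, ← Real.rpow_mul (by linarith)]
        congr 2
        ring
    _ ≤ _ := Real.rpow_le_rpow_of_exponent_le hT h1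

/-- The probability of the bad event tends to zero. -/
theorem badA_prob (h : HypG d α lam β μW μL) :
    ∃ T0 : ℝ, 1 ≤ T0 ∧ ∀ T, T0 ≤ T →
      law d μW μL (BadA d α lam β μL T) ≤ ENNReal.ofReal (T⁻¹) * 2 := by
  have := h.probL
  obtain ⟨c, hc, T1, hT1, hsb⟩ := search_bound h
  set s := ss d α β with hs
  have hs1 := one_lt_ss h
  have ha := h.apos
  have hd := h.dpos
  have hk := k1_pos h
  set a : ℝ := (1 + s) / α with ha'
  have ha0 : 0 < a := by positivity
  -- polynomial times stretched exponential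
  have hlim := poly_exp_tendsto ((5 * d : ℝ) ^ d) ((1 + a) * d + 1) c (k1 d α β / 2) hc (by positivity)
  have hev := hlim.eventually (gt_mem_nhds (show (0 : ENNReal) < 1 by norm_num))
  obtain ⟨T2, hT2⟩ := eventually_atTop.1 hev
  have hev3 : ∀ᶠ T : ℝ in atTop, (2 : ℝ) ≤ T ^ (s - 1) :=
    (tendsto_rpow_atTop (by linarith)).eventually_ge_atTop _
  obtain ⟨T3, hT3⟩ := eventually_atTop.1 hev3
  refine ⟨max (T1 + 1) (max T2 T3), by linarith [le_max_left (T1 + 1) (max T2 T3)], ?_⟩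
  intro T hT
  have hTT1 : T1 + 1 ≤ T := (le_max_left _ _).trans hT
  have hTT2 : T2 ≤ T := ((le_max_left _ _).trans (le_max_right _ _)).trans hT
  have hTT3 : T3 ≤ T := ((le_max_right _ _).trans (le_max_right _ _)).trans hT
  have hT1' : 1 ≤ T := by linarith
  have hT0 : 0 < T := by linarith
  have hge := sc_ge h hT1' (hT3 T hTT3)
  have hST : ∀ j, T ≤ sc d α β T j := fun j => by
    refine le_trans ?_ (hge j)
    have : (1 : ℝ) ≤ 2 ^ j := one_le_pow₀ (by norm_num)
    nlinarith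
  have hterm : ∀ j : ℕ, law d μW μL (⋃ u ∈ bx (0 : Site d) ⌈rad d α β T j⌉₊,
      SB d α lam s (dl d α β μL T j) (sc d α β T j) u) ≤
      ENNReal.ofReal (T⁻¹) * ENNReal.ofReal ((1 / 2 : ℝ) ^ j) := by
    intro j
    set S := sc d α β T j with hS
    have hSj : T ≤ S := hST j
    have hS1 : 1 < S := by linarith
    have hS0 : 0 < S := by linarith
    have hL : ENNReal.ofReal (S ^ (-(k1 d α β / 2))) ≤ μL (Set.Iic (dl d α β μL T j)) := by
      apply le_measure_quantile
      · exact Real.rpow_lt_one_of_one_lt_of_neg hS1 (by linarith)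
      · positivity
    have hj1 : (1 + (j : ℝ) * d) ≤ d * S := by
      have h1 : (1 : ℝ) + j ≤ 2 ^ j := by
        have := one_add_mul_le_pow (show (-2 : ℝ) ≤ 1 by norm_num) j
        norm_num at this
        linarith
      have h2 : (2 : ℝ) ^ j ≤ S := by
        refine le_trans ?_ (hge j)
        have : (0 : ℝ) < 2 ^ j := by positivity
        nlinarith
      nlinarith
    have hSa : 1 ≤ S ^ a := Real.one_le_rpow hS1.le ha0.le
    have hrad1 : 1 ≤ rad d α β T j := by
      unfold rad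
      have h1 : (0 : ℝ) ≤ (j : ℝ) * d := by positivity
      change 1 ≤ (1 + (j : ℝ) * d) * S ^ a
      nlinarith
    have hrad2 : rad d α β T j ≤ d * S ^ (1 + a) := by
      unfold rad
      change (1 + (j : ℝ) * d) * S ^ a ≤ d * S ^ (1 + a)
      rw [Real.rpow_add hS0, Real.rpow_one, ← mul_assoc]
      gcongr
    have hcard : ((bx (0 : Site d) ⌈rad d α β T j⌉₊).card : ENNReal) ≤
        ENNReal.ofReal ((5 * d : ℝ) ^ d * S ^ ((1 + a) * d)) := by
      rw [card_bx]
      have h1 : (((2 * ⌈rad d α β T j⌉₊ + 1) ^ d : ℕ) : ENNReal) =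
          ENNReal.ofReal (((2 * ⌈rad d α β T j⌉₊ + 1 : ℕ) : ℝ) ^ d) := by
        rw [← ENNReal.ofReal_natCast]; push_cast; rfl
      rw [h1]
      apply ENNReal.ofReal_le_ofReal
      have h2 : (⌈rad d α β T j⌉₊ : ℝ) < rad d α β T j + 1 := Nat.ceil_lt_add_one (by linarith)
      have h3 : ((2 * ⌈rad d α β T j⌉₊ + 1 : ℕ) : ℝ) ≤ 5 * d * S ^ (1 + a) := by
        push_cast
        linarith
      calc ((2 * ⌈rad d α β T j⌉₊ + 1 : ℕ) : ℝ) ^ d ≤ (5 * d * S ^ (1 + a)) ^ d := by gcongr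
        _ = (5 * d : ℝ) ^ d * S ^ ((1 + a) * d) := by
            rw [mul_pow, Real.rpow_mul hS0.le, Real.rpow_natCast]
    calc law d μW μL (⋃ u ∈ bx (0 : Site d) ⌈rad d α β T j⌉₊, SB d α lam s (dl d α β μL T j) S u)
        ≤ ∑ u ∈ bx (0 : Site d) ⌈rad d α β T j⌉₊,
            law d μW μL (SB d α lam s (dl d α β μL T j) S u) := measure_biUnion_finset_le _ _
      _ ≤ ∑ _u ∈ bx (0 : Site d) ⌈rad d α β T j⌉₊,
            ENNReal.ofReal (Real.exp (-(c * S ^ (k1 d α β / 2)))) :=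
          Finset.sum_le_sum fun u _ => hsb S (by linarith) u _ hL
      _ = ((bx (0 : Site d) ⌈rad d α β T j⌉₊).card : ENNReal) *
            ENNReal.ofReal (Real.exp (-(c * S ^ (k1 d α β / 2)))) := by
          rw [Finset.sum_const, nsmul_eq_mul]
      _ ≤ ENNReal.ofReal ((5 * d : ℝ) ^ d * S ^ ((1 + a) * d)) *
            ENNReal.ofReal (Real.exp (-(c * S ^ (k1 d α β / 2)))) := by gcongr
      _ = ENNReal.ofReal (S⁻¹) * ENNReal.ofReal ((5 * d : ℝ) ^ d * S ^ ((1 + a) * d + 1) *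
            Real.exp (-(c * S ^ (k1 d α β / 2)))) := by
          rw [← ENNReal.ofReal_mul (by positivity), ← ENNReal.ofReal_mul (by positivity)]
          congr 1
          rw [Real.rpow_add hS0, Real.rpow_one]
          field_simp
      _ ≤ ENNReal.ofReal (S⁻¹) * 1 := by
          gcongr
          exact (hT2 S (hTT2.trans hSj)).le
      _ ≤ ENNReal.ofReal (T⁻¹ * (1 / 2 : ℝ) ^ j) := by
          rw [mul_one]
          apply ENNReal.ofReal_le_ofReal
          rw [one_div, inv_pow, ← mul_inv]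
          apply inv_anti₀ (by positivity)
          exact hge j
      _ = _ := by rw [ENNReal.ofReal_mul (by positivity)]
  unfold BadA
  refine (measure_iUnion_le _).trans ((ENNReal.tsum_le_tsum hterm).trans ?_)
  rw [ENNReal.tsum_mul_left]
  gcongr
  apply le_of_eq
  have h1 : ∀ j : ℕ, ENNReal.ofReal ((1 / 2 : ℝ) ^ j) = (2⁻¹ : ENNReal) ^ j := by
    intro j
    rw [ENNReal.ofReal_pow (by norm_num)]
    congr 1
    rw [one_div, ENNReal.ofReal_inv_of_pos (by norm_num)]
    simp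
  simp_rw [h1]
  rw [ENNReal.tsum_geometric, ENNReal.one_sub_inv_two, inv_inv]

/-- Outside of the bad event some explosion time is finite. -/
theorem exists_V_ne_top (h : HypG d α lam β μW μL) (hpos : μL (Set.Iio 0) = 0) (hI : IL μL < ⊤) :
    ∃ T0 : ℝ, 1 ≤ T0 ∧ ∀ T, T0 ≤ T → ∀ ω : Conf d, ω ∉ BadA d α lam β μL T →
      ∃ u, V (eo α lam ω) u ≠ ⊤ := by
  have := h.probL
  set s := ss d α β with hs
  have hs1 := one_lt_ss h
  have hs0 : 0 < s := by linarith
  have ha := h.apos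
  have hd := h.dpos
  have hk := k1_pos h
  set a : ℝ := (1 + s) / α with ha'
  have ha0 : 0 < a := by positivity
  have hev3 : ∀ᶠ T : ℝ in atTop, (2 : ℝ) ≤ T ^ (s - 1) :=
    (tendsto_rpow_atTop (by linarith)).eventually_ge_atTop _
  have hev4 : ∀ᶠ T : ℝ in atTop, s ≤ k1 d α β / 2 * Real.log T := by
    have h1 : Tendsto (fun T : ℝ => k1 d α β / 2 * Real.log T) atTop atTop :=
      Real.tendsto_log_atTop.const_mul_atTop (by positivity)
    exact h1.eventually_ge_atTop _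
  obtain ⟨T3, hT3⟩ := eventually_atTop.1 (hev3.and hev4)
  refine ⟨max 1 T3, le_max_left _ _, ?_⟩
  intro T hT ω hω
  have hT1 : 1 ≤ T := (le_max_left _ _).trans hT
  have hT0 : 0 < T := by linarith
  obtain ⟨h2T, hcT⟩ := hT3 T ((le_max_right _ _).trans hT)
  have hge := sc_ge h hT1 h2T
  have hS1 : ∀ j, 1 ≤ sc d α β T j := fun j => by
    refine le_trans ?_ (hge j)
    have : (1 : ℝ) ≤ 2 ^ j := one_le_pow₀ (by norm_num)
    nlinarith
  have hsucc : ∀ j, sc d α β T j ^ s = sc d α β T (j + 1) := by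
    intro j
    unfold sc
    rw [← Real.rpow_mul hT0.le, pow_succ]
  have hmono : ∀ j, sc d α β T j ^ a ≤ sc d α β T (j + 1) ^ a := by
    intro j
    rw [← hsucc j]
    apply Real.rpow_le_rpow (by linarith [hS1 j]) _ ha0.le
    calc sc d α β T j = sc d α β T j ^ (1 : ℝ) := (Real.rpow_one _).symm
      _ ≤ sc d α β T j ^ s := Real.rpow_le_rpow_of_exponent_le (hS1 j) hs1.le
  have hnb : ∀ (j : ℕ) (u : Site d), nrm u ≤ rad d α β T j →
      ω ∉ SB d α lam s (dl d α β μL T j) (sc d α β T j) u := by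
    intro j u hu hc
    apply hω
    unfold BadA
    simp only [Set.mem_iUnion]
    refine ⟨j, u, ?_, hc⟩
    apply mem_bx_of_nrm
    rw [sub_zero]
    exact hu.trans (Nat.le_ceil _)
  -- the chain
  let P : ℕ → Site d → Prop := fun j z =>
    sc d α β T (j + 1) ≤ wt ω z ∧ nrm z ≤ rad d α β T (j + 1)
  let R : ℕ → Site d → Site d → Prop := fun j z z' =>
    cost ω z z' ≤ dl d α β μL T (j + 1) ∧ Pool.Agent.W823.SFP.Joined α lam ω z z'
  have hP0 : ∃ z, P 0 z := by
    have hrad0 : 0 ≤ rad d α β T 0 := by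
      unfold rad
      have : 0 ≤ sc d α β T 0 := by linarith [hS1 0]
      positivity
    have hn0 : nrm (0 : Site d) ≤ rad d α β T 0 := by rw [nrm_zero]; exact hrad0
    have hb := hnb 0 0 hn0
    unfold SB at hb
    simp only [Set.mem_ofPred_eq, not_forall, not_not] at hb
    obtain ⟨y, hy1, -, -⟩ := hb
    refine ⟨bsite 0 y, ?_, ?_⟩
    · rw [← hsucc]; exact hy1
    · have hn := nrm_sub_bsite h (by linarith [hS1 0] : (0 : ℝ) ≤ sc d α β T 0) 0 y
      rw [nrm_sub_comm, sub_zero] at hn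
      refine hn.trans ?_
      unfold rad
      change (d : ℝ) * sc d α β T 0 ^ a ≤ (1 + ((0 + 1 : ℕ) : ℝ) * d) * sc d α β T (0 + 1) ^ a
      have h5 := hmono 0
      have h6 : 0 ≤ sc d α β T 0 ^ a := Real.rpow_nonneg (by linarith [hS1 0]) _
      push_cast
      nlinarith
  have hPs : ∀ n z, P n z → ∃ z', P (n + 1) z' ∧ R n z z' := by
    rintro n z ⟨h1, h2⟩
    obtain ⟨z', h3, h4, h5, h6⟩ := step_of_not_SB h (hS1 (n + 1)) (hnb (n + 1) z h2) h1
    refine ⟨z', ⟨?_, ?_⟩, h5, h6⟩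
    · rw [← hsucc]; exact h3
    · have h7 := nrm_add_le z (z' - z)
      rw [add_sub_cancel, nrm_sub_comm z' z] at h7
      have h8 := hmono (n + 1)
      have h9 : 0 ≤ sc d α β T (n + 1) ^ a := Real.rpow_nonneg (by linarith [hS1 (n + 1)]) _
      unfold rad at h2 ⊢
      change nrm z ≤ (1 + ((n + 1 : ℕ) : ℝ) * d) * sc d α β T (n + 1) ^ a at h2
      change nrm (z - z') ≤ d * sc d α β T (n + 1) ^ a at h4
      change nrm z' ≤ (1 + ((n + 1 + 1 : ℕ) : ℝ) * d) * sc d α β T (n + 1 + 1) ^ a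
      calc nrm z' ≤ (1 + ((n + 1 : ℕ) : ℝ) * d) * sc d α β T (n + 1) ^ a +
            d * sc d α β T (n + 1) ^ a := by linarith
        _ = (1 + ((n + 1 + 1 : ℕ) : ℝ) * d) * sc d α β T (n + 1) ^ a := by push_cast; ring
        _ ≤ _ := by gcongr
  obtain ⟨f, hf⟩ := exists_chain hP0 hPs
  refine ⟨f 0, ?_⟩
  -- the range is infinite
  have hrange : (Set.range f).Infinite := by
    intro hfin
    obtain ⟨M, hM⟩ := (hfin.image (wt ω)).bddAbove
    obtain ⟨n, hn⟩ := exists_nat_gt M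
    have h1 := hM ⟨f n, ⟨n, rfl⟩, rfl⟩
    have h2 := (hf n).1.1
    have h3 := hge (n + 1)
    have h4 : (n : ℝ) < 2 ^ (n + 1) := by
      have : n < 2 ^ (n + 1) := (Nat.lt_two_pow_self).trans (Nat.pow_lt_pow_right (by norm_num) (by omega))
      exact_mod_cast this
    have h5 : (0 : ℝ) < 2 ^ (n + 1) := by positivity
    nlinarith
  refine ne_top_of_le_ne_top ?_ (V_le_chain f hrange)
  have hle : ∀ n, eo α lam ω (f n) (f (n + 1)) ≤
      ENNReal.ofReal (quantile μL (Real.exp (-(k1 d α β / 2 * Real.log T * s ^ (n + 1))))) +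
        ENNReal.ofReal ((1 / 2 : ℝ) ^ (n + 1)) := by
    intro n
    rw [eo_of_joined (hf n).2.2]
    refine (ENNReal.ofReal_le_ofReal (hf n).2.1).trans ?_
    unfold dl
    refine ENNReal.ofReal_add_le.trans (le_of_eq ?_)
    congr 3
    unfold sc
    rw [← Real.rpow_mul hT0.le, Real.rpow_def_of_pos hT0]
    congr 1
    ring
  refine ne_top_of_le_ne_top ?_ (ENNReal.tsum_le_tsum hle)
  rw [ENNReal.tsum_add]
  have hsumq := sum_quantile (μL := μL) hpos hI hs1 hcT
  refine ENNReal.add_ne_top.2 ⟨?_, ?_⟩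
  · refine ne_top_of_le_ne_top hsumq.ne ?_
    exact ENNReal.tsum_comp_le_tsum_of_injective (Nat.succ_injective)
      (fun j => ENNReal.ofReal (quantile μL (Real.exp (-(k1 d α β / 2 * Real.log T * s ^ j)))))
  · have h1 : Summable fun n : ℕ => (1 / 2 : ℝ) ^ (n + 1) :=
      (summable_nat_add_iff 1).2 (summable_geometric_of_lt_one (by norm_num) (by norm_num))
    rw [← ENNReal.ofReal_tsum_of_nonneg (fun n => by positivity) h1]
    exact ENNReal.ofReal_ne_top

/-- Almost surely all explosion times are finite. -/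
theorem ae_V_ne_top (h : HypG d α lam β μW μL) (hpos : μL (Set.Iio 0) = 0) (hI : IL μL < ⊤) :
    ∀ᵐ ω ∂(law d μW μL), ∀ x : Site d, V (eo α lam ω) x ≠ ⊤ := by
  obtain ⟨T1, hT1, h1⟩ := badA_prob h
  obtain ⟨T2, hT2, h2⟩ := exists_V_ne_top (lam := lam) h hpos hI
  have key : law d μW μL {ω | ¬ ∃ u, V (eo α lam ω) u ≠ ⊤} = 0 := by
    have hle : ∀ T, max T1 T2 ≤ T →
        law d μW μL {ω | ¬ ∃ u, V (eo α lam ω) u ≠ ⊤} ≤ ENNReal.ofReal (T⁻¹) * 2 := by
      intro T hT
      refine le_trans (measure_mono ?_) (h1 T ((le_max_left _ _).trans hT))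
      intro ω hω
      by_contra hc
      exact hω (h2 T ((le_max_right _ _).trans hT) ω hc)
    have hlim : Tendsto (fun T : ℝ => ENNReal.ofReal (T⁻¹) * 2) atTop (𝓝 0) := by
      have h3 : Tendsto (fun T : ℝ => ENNReal.ofReal (T⁻¹)) atTop (𝓝 0) := by
        have := ENNReal.tendsto_ofReal tendsto_inv_atTop_zero
        rwa [ENNReal.ofReal_zero] at this
      have h4 := ENNReal.Tendsto.mul_const (b := 2) h3 (Or.inr (by norm_num))
      rwa [zero_mul] at h4
    have := ge_of_tendsto hlim ((eventually_ge_atTop (max T1 T2)).mono hle)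
    exact le_antisymm this zero_le
  have h3 : ∀ᵐ ω ∂(law d μW μL), ∃ u, V (eo α lam ω) u ≠ ⊤ := by
    rw [ae_iff]; exact key
  filter_upwards [h3] with ω hω x
  obtain ⟨u, hu⟩ := hω
  exact V_ne_top_all hu x

end Pool.Agent.KS6_54.SFX
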