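import Pool.Agent.KS6_54.SFX.Mod

set_option autoImplicit false

namespace Pool.Agent.KS6_54.SFX

open Pool.Agent.W823.SFD

variable {A : Type*}

theorem trivial_case {e : A → A → ENNReal} (hsym : ∀ a b, e a b = e b a) {x : A} {ε : ENNReal}
    (h : V e x ≤ ε) : {z | pd e x z + ε < V e z} = ∅ := by
  ext z
  simp only [Set.mem_ofPred_eq, Set.mem_empty_iff_false, iff_false, not_lt]
  calc V e z ≤ pd e z x + V e x := V_tri e z x
    _ ≤ pd e x z + ε := by rw [pd_symm hsym z x]; gcongr

/-- The lower bound for the distances, from the finiteness of the sets of the points whose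
explosion time exceeds the distance to a given point. -/
theorem lower_det {e : A → A → ENNReal} (hLF : LF e) {x : A} {ε : ENNReal} (hε : 0 < ε)
    (hεt : ε ≠ ⊤) (hV : V e x ≠ ⊤) (hA : ∀ w, {z | pd e w z + ε < V e z}.Finite) :
    {y | pd e x y + 3 * ε < V e x + V e y}.Finite := by
  by_cases hc : V e x ≤ ε
  · refine (hA x).subset fun y hy => ?_
    change pd e x y + 3 * ε < V e x + V e y at hy
    show pd e x y + ε < V e y
    have h1 : ε + (pd e x y + ε) < ε + V e y := by
      calc ε + (pd e x y + ε) ≤ pd e x y + 3 * ε := by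
            calc ε + (pd e x y + ε) = pd e x y + 2 * ε := by ring
              _ ≤ pd e x y + 3 * ε := by gcongr; norm_num
        _ < V e x + V e y := hy
        _ ≤ ε + V e y := by gcongr
    exact (ENNReal.add_lt_add_iff_left hεt).1 h1
  · push Not at hc
    set s := V e x - ε with hs
    have hsV : s < V e x := ENNReal.sub_lt_self hV (hε.trans hc).ne' hε.ne'
    set K := bl e x s with hK
    have hKf : K.Finite := finite_of_lt hsV
    have hxK : x ∈ K := by
      show pd e x x ≤ s
      rw [pd_self]; exact zero_le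
    have hNf : {w | ∃ u ∈ K, e u w ≠ ⊤}.Finite := exit_finite hLF hKf
    refine (hKf.union (hNf.biUnion fun w _ => hA w)).subset fun y hy => ?_
    change pd e x y + 3 * ε < V e x + V e y at hy
    by_cases hyK : y ∈ K
    · exact Or.inl hyK
    right
    have hdt : pd e x y ≠ ⊤ := by
      intro h; rw [h, top_add] at hy; exact not_top_lt hy
    obtain ⟨u, w, hu, hw, huw⟩ := split (ENNReal.lt_add_right hdt hε.ne') (fun a => a ∈ K) hxK hyK
    have hne : e u w ≠ ⊤ := by
      intro h
      rw [h] at huw
      simp at huw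
    simp only [Set.mem_iUnion]
    refine ⟨w, ⟨u, hu, hne⟩, ?_⟩
    show pd e w y + ε < V e y
    by_contra h5
    push Not at h5
    have h6 : s < pd e x w := not_le.1 hw
    have h7 : V e x ≤ pd e x w + ε := by
      have : V e x = s + ε := (tsub_add_cancel_of_le hc.le).symm
      rw [this]
      gcongr
    have h8 : V e x + V e y ≤ pd e x y + 3 * ε := by
      calc V e x + V e y ≤ (pd e x w + ε) + (pd e w y + ε) := add_le_add h7 h5
        _ ≤ ((pd e x u + e u w) + ε) + (pd e w y + ε) := by gcongr; exact pd_step e x u w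
        _ = (pd e x u + e u w + pd e w y) + 2 * ε := by ring
        _ ≤ (pd e x y + ε) + 2 * ε := by gcongr
        _ = pd e x y + 3 * ε := by ring
    exact absurd hy (not_lt.2 h8)

/-! ### Relabelling -/

theorem pd_relabel (φ : A ≃ A) (e : A → A → ENNReal) (x z : A) :
    pd (fun a b => e (φ a) (φ b)) x z = pd e (φ x) (φ z) := by
  have key : ∀ (φ : A ≃ A) (e : A → A → ENNReal) (x z : A),
      pd e (φ x) (φ z) ≤ pd (fun a b => e (φ a) (φ b)) x z := by
    intro φ e x z
    rw [pd]
    refine le_iInf fun n => le_iInf fun v => le_iInf fun hv => ?_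
    have := pd_le_path e (φ ∘ v)
    simp only [Function.comp, hv.1, hv.2] at this
    exact this
  refine le_antisymm ?_ (key φ e x z)
  have := key φ.symm (fun a b => e (φ a) (φ b)) (φ x) (φ z)
  simpa using this

theorem bl_relabel (φ : A ≃ A) (e : A → A → ENNReal) (x : A) (t : ENNReal) :
    bl (fun a b => e (φ a) (φ b)) x t = φ ⁻¹' bl e (φ x) t := by
  ext y
  show pd _ x y ≤ t ↔ pd e (φ x) (φ y) ≤ t
  rw [pd_relabel]

theorem V_relabel (φ : A ≃ A) (e : A → A → ENNReal) (x : A) :
    V (fun a b => e (φ a) (φ b)) x = V e (φ x) := by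
  unfold V tu
  congr 1
  funext n
  congr 1
  ext t
  simp only [Set.mem_ofPred_eq]
  rw [bl_relabel, Set.encard_preimage_of_bijective φ.bijective]

theorem Cr_relabel (φ : A ≃ A) (e : A → A → ENNReal) (κ δ : ENNReal) (z : A) :
    Cr (fun a b => e (φ a) (φ b)) κ δ z = φ ⁻¹' Cr e κ δ (φ z) := by
  ext u
  unfold Cr
  simp only [Set.mem_ofPred_eq, Set.mem_preimage, V_relabel, pd_relabel]
  constructor
  · rintro ⟨h1, w, h2, h3⟩
    exact ⟨h1, φ w, h2, h3⟩
  · rintro ⟨h1, w, h2, h3⟩
    refine ⟨h1, φ.symm w, ?_, ?_⟩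
    · simpa using h2
    · simpa using h3

end Pool.Agent.KS6_54.SFX
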