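import Pool.Agent.KS6_54.SFX.Low

set_option autoImplicit false

/-!
# Measurability of explosion times; product measures
-/

namespace Pool.Agent.KS6_54.SFX

open Pool.Agent.W823.SFD MeasureTheory

variable {A : Type*} {Ω : Type*} [MeasurableSpace Ω]

theorem tu_lt_iff {e : A → A → ENNReal} {x : A} {n : ℕ} {t : ENNReal} :
    tu e x n < t ↔ 0 < t ∧ ∃ S : Finset A, S.card = n ∧ ∀ y ∈ S, pd e x y < t := by
  unfold tu
  rw [sInf_lt_iff]
  constructor
  · rintro ⟨s, hs, hst⟩
    refine ⟨lt_of_le_of_lt zero_le hst, ?_⟩
    change (n : ℕ∞) ≤ (bl e x s).encard at hs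
    obtain ⟨T, hT, hcard⟩ := Set.exists_subset_encard_eq hs
    have hfin : T.Finite := Set.finite_of_encard_eq_coe hcard
    refine ⟨hfin.toFinset, ?_, fun y hy => ?_⟩
    · rw [hfin.encard_eq_coe_toFinset_card] at hcard
      exact_mod_cast hcard
    · have : y ∈ T := by simpa using hy
      exact lt_of_le_of_lt (hT this) hst
  · rintro ⟨ht, S, hS, hy⟩
    refine ⟨S.sup fun y => pd e x y, ?_, ?_⟩
    · show (n : ℕ∞) ≤ (bl e x _).encard
      rw [← hS, ← Set.encard_coe_eq_coe_finsetCard]
      apply Set.encard_le_encard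
      intro y hy'
      exact Finset.le_sup (f := fun y => pd e x y) (Finset.mem_coe.1 hy')
    · rw [Finset.sup_lt_iff (by simpa using ht)]
      exact hy

variable [Countable A]

theorem measurable_tu {e : Ω → A → A → ENNReal} (he : ∀ x y, Measurable fun ω => e ω x y)
    (x : A) (n : ℕ) : Measurable fun ω => tu (e ω) x n := by
  refine measurable_of_Iio fun t => ?_
  have : (fun ω => tu (e ω) x n) ⁻¹' Set.Iio t =
      {_ω | 0 < t} ∩ ⋃ (S : Finset A) (_ : S.card = n), ⋂ y ∈ S, {ω | pd (e ω) x y < t} := by
    ext ω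
    simp only [Set.mem_preimage, Set.mem_Iio, tu_lt_iff, Set.mem_inter_iff, Set.mem_ofPred_eq,
      Set.mem_iUnion, Set.mem_iInter, exists_prop]
  rw [this]
  refine (MeasurableSet.const _).inter (MeasurableSet.iUnion fun S => MeasurableSet.iUnion fun _ =>
    Finset.measurableSet_biInter _ fun y _ => measurableSet_lt (measurable_pd he x y) measurable_const)

theorem measurable_V {e : Ω → A → A → ENNReal} (he : ∀ x y, Measurable fun ω => e ω x y)
    (x : A) : Measurable fun ω => V (e ω) x :=
  Measurable.iSup fun n => measurable_tu he x n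

theorem measurableSet_mem_Cr {e : Ω → A → A → ENNReal} (he : ∀ x y, Measurable fun ω => e ω x y)
    (κ δ : ENNReal) (z u : A) : MeasurableSet {ω | u ∈ Cr (e ω) κ δ z} := by
  have : {ω | u ∈ Cr (e ω) κ δ z} = {ω | κ ≤ V (e ω) u} ∩
      ⋃ w, ({ω | V (e ω) w < κ} ∩ {ω | pd (e ω) z u + e ω u w + V (e ω) w ≤ V (e ω) z + δ}) := by
    ext ω
    simp only [Cr, Set.mem_ofPred_eq, Set.mem_inter_iff, Set.mem_iUnion]
  rw [this]
  refine (measurableSet_le measurable_const (measurable_V he u)).inter
    (MeasurableSet.iUnion fun w => (measurableSet_lt (measurable_V he w) measurable_const).inter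
      (measurableSet_le ?_ ?_))
  · exact ((measurable_pd he z u).add (he u w)).add (measurable_V he w)
  · exact (measurable_V he z).add measurable_const

/-- The event that the set `Cr z` is nonempty and contained in `F`. -/
def Ev (e : Ω → A → A → ENNReal) (κ δ : ENNReal) (F : Set A) (z : A) : Set Ω :=
  {ω | (Cr (e ω) κ δ z).Nonempty ∧ Cr (e ω) κ δ z ⊆ F}

theorem measurableSet_Ev {e : Ω → A → A → ENNReal} (he : ∀ x y, Measurable fun ω => e ω x y)
    (κ δ : ENNReal) (F : Set A) (z : A) : MeasurableSet (Ev e κ δ F z) := by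
  have : Ev e κ δ F z = (⋃ u, {ω | u ∈ Cr (e ω) κ δ z}) ∩
      ⋂ u, ({ω | u ∈ Cr (e ω) κ δ z}ᶜ ∪ {_ω | u ∈ F}) := by
    ext ω
    simp only [Ev, Set.mem_ofPred_eq, Set.mem_inter_iff, Set.mem_iUnion, Set.mem_iInter,
      Set.mem_union, Set.mem_compl_iff, Set.Nonempty]
    constructor
    · rintro ⟨h1, h2⟩
      exact ⟨h1, fun u => by by_cases h : u ∈ Cr (e ω) κ δ z; exacts [Or.inr (h2 h), Or.inl h]⟩
    · rintro ⟨h1, h2⟩
      refine ⟨h1, fun u hu => ?_⟩
      rcases h2 u with h | h
      · exact absurd hu h
      · exact h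
  rw [this]
  exact (MeasurableSet.iUnion fun u => measurableSet_mem_Cr he κ δ z u).inter
    (MeasurableSet.iInter fun u => (measurableSet_mem_Cr he κ δ z u).compl.union
      (MeasurableSet.const _))

/-! ### Product measures -/

theorem map_reindex {I : Type*} (P : I → Measure ℝ) [∀ i, IsProbabilityMeasure (P i)]
    (φ : I ≃ I) (hφ : ∀ i, P (φ i) = P i) :
    (Measure.infinitePi P).map (fun ω i => ω (φ i)) = Measure.infinitePi P := by
  classical
  refine Measure.eq_infinitePi P fun s t ht => ?_
  have hm : Measurable (fun (ω : I → ℝ) i => ω (φ i)) :=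
    measurable_pi_lambda _ fun i => measurable_pi_apply _
  rw [Measure.map_apply hm (MeasurableSet.pi s.countable_toSet fun i _ => ht i)]
  have : (fun (ω : I → ℝ) i => ω (φ i)) ⁻¹' (Set.pi (s : Set I) t) =
      Set.pi ((s.map φ.toEmbedding : Finset I) : Set I) (fun j => t (φ.symm j)) := by
    ext ω
    simp only [Set.mem_preimage, Set.mem_pi, Finset.mem_coe, Finset.mem_map,
      Equiv.coe_toEmbedding, forall_exists_index, and_imp, forall_apply_eq_imp_iff₂,
      Equiv.symm_apply_apply]
  rw [this, Measure.infinitePi_pi P fun i _ => ht _, Finset.prod_map]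
  refine Finset.prod_congr rfl fun i _ => ?_
  simp [hφ]

theorem map_update {I : Type*} [DecidableEq I] (P : I → Measure ℝ)
    [∀ i, IsProbabilityMeasure (P i)] (i : I) :
    ((Measure.infinitePi P).prod (P i)).map (fun p : (I → ℝ) × ℝ => Function.update p.1 i p.2) =
      Measure.infinitePi P := by
  refine Measure.eq_infinitePi P fun s t ht => ?_
  have hm : Measurable (fun p : (I → ℝ) × ℝ => Function.update p.1 i p.2) := by
    refine measurable_pi_lambda _ fun j => ?_
    by_cases hj : j = i
    · subst hj
      simp only [Function.update_self]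
      exact measurable_snd
    · simp only [Function.update_of_ne hj]
      exact (measurable_pi_apply j).comp measurable_fst
  rw [Measure.map_apply hm (MeasurableSet.pi s.countable_toSet fun i _ => ht i)]
  by_cases hi : i ∈ s
  · have : (fun p : (I → ℝ) × ℝ => Function.update p.1 i p.2) ⁻¹' (Set.pi (s : Set I) t) =
        (Set.pi ((s.erase i : Finset I) : Set I) t) ×ˢ (t i) := by
      ext p
      simp only [Set.mem_preimage, Set.mem_pi, Finset.mem_coe, Set.mem_prod, Finset.mem_erase]
      constructor
      · intro h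
        refine ⟨fun j hj => ?_, ?_⟩
        · have := h j hj.2
          rwa [Function.update_of_ne hj.1] at this
        · have := h i hi
          rwa [Function.update_self] at this
      · rintro ⟨h1, h2⟩ j hj
        by_cases hji : j = i
        · subst hji; rwa [Function.update_self]
        · rw [Function.update_of_ne hji]; exact h1 j ⟨hji, hj⟩
    rw [this, Measure.prod_prod, Measure.infinitePi_pi P fun i _ => ht _,
      Finset.prod_erase_mul _ _ hi]
  · have : (fun p : (I → ℝ) × ℝ => Function.update p.1 i p.2) ⁻¹' (Set.pi (s : Set I) t) =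
        (Set.pi (s : Set I) t) ×ˢ Set.univ := by
      ext p
      simp only [Set.mem_preimage, Set.mem_pi, Finset.mem_coe, Set.mem_prod, Set.mem_univ, and_true]
      constructor
      · intro h j hj
        have := h j hj
        rwa [Function.update_of_ne (by rintro rfl; exact hi hj)] at this
      · intro h j hj
        rw [Function.update_of_ne (by rintro rfl; exact hi hj)]
        exact h j hj
    rw [this, Measure.prod_prod, Measure.infinitePi_pi P fun i _ => ht _, measure_univ, mul_one]

/-- Resampling one coordinate. -/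
theorem ae_resample {I : Type*} [DecidableEq I] (P : I → Measure ℝ)
    [∀ i, IsProbabilityMeasure (P i)] (i : I) {T : (I → ℝ) → Prop}
    (hT : ∀ᵐ ω ∂(Measure.infinitePi P), T ω) :
    ∀ᵐ ω ∂(Measure.infinitePi P), ∀ᵐ s ∂(P i), T (Function.update ω i s) := by
  have hm : Measurable (fun p : (I → ℝ) × ℝ => Function.update p.1 i p.2) := by
    refine measurable_pi_lambda _ fun j => ?_
    by_cases hj : j = i
    · subst hj
      simp only [Function.update_self]
      exact measurable_snd
    · simp only [Function.update_of_ne hj]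
      exact (measurable_pi_apply j).comp measurable_fst
  have h1 : ∀ᵐ p ∂((Measure.infinitePi P).prod (P i)), T (Function.update p.1 i p.2) := by
    have h2 : ∀ᵐ ω ∂(((Measure.infinitePi P).prod (P i)).map
        (fun p : (I → ℝ) × ℝ => Function.update p.1 i p.2)), T ω := by
      rw [map_update]; exact hT
    exact ae_of_ae_map hm.aemeasurable h2
  exact Measure.ae_ae_of_ae_prod h1

end Pool.Agent.KS6_54.SFX
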