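import Pool.Agent.KS6_54.SFX.Det

set_option autoImplicit false

/-!
# The effect of changing the weight of one edge on the explosion times
-/

namespace Pool.Agent.KS6_54.SFX

open Pool.Agent.W823.SFD

variable {A : Type*}

/-- `e'` and `e` agree except possibly at the pair `{a, b}`. -/
def Agree (e e' : A → A → ENNReal) (a b : A) : Prop :=
  ∀ u w, ¬ ((u = a ∧ w = b) ∨ (u = b ∧ w = a)) → e' u w = e u w

theorem min_le_mod {e e' : A → A → ENNReal} {a b : A} (h : Agree e e' a b) (v y : A) :
    min (pd e v y) (min (pd e v a) (pd e v b)) ≤ pd e' v y := by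
  by_contra hcon
  push Not at hcon
  set M := min (pd e v a) (pd e v b) with hM
  obtain ⟨n, p, h0, hl, hsum⟩ := exists_path hcon
  have := path_induction p hsum (fun z s => min (pd e v z) M ≤ s)
    (by rw [h0, pd_self]; exact min_le_left _ _) (by
    rintro i s hs -
    set z := p i.castSucc
    set z' := p i.succ
    by_cases hm : (z = a ∧ z' = b) ∨ (z = b ∧ z' = a)
    · have hMz : M ≤ pd e v z := by
        rcases hm with ⟨h1, -⟩ | ⟨h1, -⟩
        · rw [h1]; exact min_le_left _ _
        · rw [h1]; exact min_le_right _ _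
      rw [min_eq_right hMz] at hs
      exact (min_le_right _ _).trans (hs.trans le_self_add)
    · rw [h z z' hm]
      calc min (pd e v z') M ≤ min (pd e v z + e z z') (M + e z z') :=
            min_le_min (pd_step e v z z') le_self_add
        _ = min (pd e v z) M + e z z' := (min_add_add_right _ _ _)
        _ ≤ s + e z z' := by gcongr) (Fin.last n)
  obtain ⟨s, hs, hq⟩ := this
  rw [hl] at hq
  exact absurd hs (not_lt.2 hq)

theorem mod_or {e e' : A → A → ENNReal} {a b : A} (h : Agree e e' a b) {v y : A} {r : ENNReal}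
    (hr : pd e' v y < r) : pd e v y < r ∨ pd e' v a + pd e' a y < r := by
  obtain ⟨n, p, h0, hl, hsum⟩ := exists_path hr
  have := path_induction p hsum (fun z s => (pd e v z ≤ s ∧ pd e' v z ≤ s) ∨
      pd e' v a + pd e' a z ≤ s)
    (Or.inl (by rw [h0, pd_self, pd_self]; exact ⟨le_rfl, le_rfl⟩)) (by
    rintro i s hs -
    set z := p i.castSucc
    set z' := p i.succ
    rcases hs with ⟨h1, h2⟩ | h3
    · by_cases hm : (z = a ∧ z' = b) ∨ (z = b ∧ z' = a)
      · right
        rcases hm with ⟨h4, h5⟩ | ⟨h4, h5⟩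
        · rw [h4] at h2 ⊢
          exact add_le_add h2 (pd_le_edge _ _ _)
        · rw [h5, pd_self, add_zero]
          exact (pd_step e' v z a).trans (by gcongr)
      · left
        rw [h z z' hm]
        refine ⟨(pd_step e v z z').trans (by gcongr), ?_⟩
        rw [← h z z' hm]
        exact (pd_step e' v z z').trans (by gcongr)
    · right
      calc pd e' v a + pd e' a z' ≤ pd e' v a + (pd e' a z + e' z z') := by
            gcongr; exact pd_step e' a z z'
        _ = (pd e' v a + pd e' a z) + e' z z' := by ring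
        _ ≤ s + e' z z' := by gcongr) (Fin.last n)
  obtain ⟨s, hs, hq⟩ := this
  rw [hl] at hq
  rcases hq with ⟨h1, -⟩ | h1
  · left; exact lt_of_le_of_lt h1 hs
  · right; exact lt_of_le_of_lt h1 hs

theorem V_mod_ge {e e' : A → A → ENNReal} {a b : A} (h : Agree e e' a b) (v : A) :
    min (V e v) (min (pd e v a) (pd e v b)) ≤ V e' v := by
  by_contra hcon
  push Not at hcon
  obtain ⟨t, h1, h2⟩ := exists_between hcon
  have h3 := infinite_of_lt h1
  refine h3 ((finite_of_lt (lt_of_lt_of_le h2 (min_le_left _ _))).subset fun y hy => ?_)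
  have h4 := (min_le_mod h v y).trans hy
  rcases min_le_iff.1 h4 with h5 | h5
  · exact h5
  · exact absurd (lt_of_lt_of_le h2 (min_le_right _ _)) (not_lt.2 h5)

theorem V_mod_ge' {e e' : A → A → ENNReal} {a b : A} (h : Agree e e' a b) (v : A) :
    min (V e v) (pd e' v a + V e' a) ≤ V e' v := by
  by_contra hcon
  push Not at hcon
  obtain ⟨t, h1, h2⟩ := exists_between hcon
  obtain ⟨t2, h3, h4⟩ := exists_between h2
  have h5 := infinite_of_lt h1
  have h6 : t2 < V e v := lt_of_lt_of_le h4 (min_le_left _ _)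
  have h7 : t2 < pd e' v a + V e' a := lt_of_lt_of_le h4 (min_le_right _ _)
  by_cases hc : pd e' v a ≤ t2
  · have h8 : t2 - pd e' v a < V e' a := by
      rcases eq_or_ne (V e' a) ⊤ with ht | ht
      · rw [ht]; exact lt_of_le_of_lt tsub_le_self (lt_of_lt_of_le h6 le_top)
      · exact ENNReal.sub_lt_of_lt_add hc (by rwa [add_comm] at h7)
    refine h5 (((finite_of_lt h6).union (finite_of_lt h8)).subset fun y hy => ?_)
    rcases mod_or h (lt_of_le_of_lt hy h3) with h9 | h9
    · left; exact h9.le
    · right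
      show pd e' a y ≤ t2 - pd e' v a
      have : pd e' v a ≠ ⊤ := ne_top_of_le_ne_top (ne_top_of_lt h6) hc
      exact ENNReal.le_sub_of_add_le_left this h9.le
  · refine h5 ((finite_of_lt h6).subset fun y hy => ?_)
    rcases mod_or h (lt_of_le_of_lt hy h3) with h9 | h9
    · exact h9.le
    · exact absurd (le_self_add.trans h9.le) hc

/-- The points on almost optimal explosion paths from `z` at which the explosion time falls below
the level `κ`. -/
def Cr (e : A → A → ENNReal) (κ δ : ENNReal) (z : A) : Set A :=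
  {u | κ ≤ V e u ∧ ∃ w, V e w < κ ∧ pd e z u + e u w + V e w ≤ V e z + δ}

/-- The main deterministic lemma. -/
theorem main_det {e e' : A → A → ENNReal} {x y0 : A} {ε : ℝ} (hε : 0 < ε)
    (hsym : ∀ a b, e a b = e b a) (hsym' : ∀ a b, e' a b = e' b a)
    (hLF' : LF e') (hεx : ENNReal.ofReal ε < V e x)
    (hy0 : V e y0 ≤ ENNReal.ofReal (ε / 8)) (hmod : Agree e e' x y0)
    (hle : e' x y0 ≤ ENNReal.ofReal (ε / 8)) (hmono : ∀ u w, e' u w ≤ e u w)
    (hinf : {z | pd e x z + ENNReal.ofReal ε < V e z}.Infinite) :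
    ∃ F : Set A, F.Finite ∧ {z | (Cr e' (ENNReal.ofReal (ε / 2)) (ENNReal.ofReal (ε / 16)) z).Nonempty ∧
      Cr e' (ENNReal.ofReal (ε / 2)) (ENNReal.ofReal (ε / 16)) z ⊆ F}.Infinite := by
  set κ := ENNReal.ofReal (ε / 2) with hκ
  set δ := ENNReal.ofReal (ε / 16) with hδ
  set q := ENNReal.ofReal (ε / 8) with hq
  have hκε : κ < ENNReal.ofReal ε := (ENNReal.ofReal_lt_ofReal_iff hε).2 (by linarith)
  have hκt : κ ≠ ⊤ := ENNReal.ofReal_ne_top
  have hqt : q ≠ ⊤ := ENNReal.ofReal_ne_top
  have hδt : δ ≠ ⊤ := ENNReal.ofReal_ne_top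
  have hδ0 : δ ≠ 0 := (ENNReal.ofReal_pos.2 (by positivity)).ne'
  have hqκ : q < κ := (ENNReal.ofReal_lt_ofReal_iff (by linarith)).2 (by linarith)
  -- sums of small quantities
  have hκq : κ + q < ENNReal.ofReal ε := by
    rw [hκ, hq, ← ENNReal.ofReal_add (by linarith) (by linarith)]
    exact (ENNReal.ofReal_lt_ofReal_iff hε).2 (by linarith)
  have h2q : (q + q) + 2 * δ < κ := by
    rw [hκ, hq, hδ, show (2 : ENNReal) = ENNReal.ofReal 2 by simp, ← ENNReal.ofReal_mul (by norm_num),
      ← ENNReal.ofReal_add (by linarith) (by linarith), ← ENNReal.ofReal_add (by linarith) (by linarith)]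
    exact (ENNReal.ofReal_lt_ofReal_iff (by linarith)).2 (by linarith)
  have h3q : (q + q) + 2 * δ + q ≤ ENNReal.ofReal ε := by
    rw [hq, hδ, show (2 : ENNReal) = ENNReal.ofReal 2 by simp, ← ENNReal.ofReal_mul (by norm_num),
      ← ENNReal.ofReal_add (by linarith) (by linarith), ← ENNReal.ofReal_add (by linarith) (by linarith),
      ← ENNReal.ofReal_add (by linarith) (by linarith)]
    exact ENNReal.ofReal_le_ofReal (by linarith)
  have hpd' : ∀ a b, pd e' a b ≤ pd e a b := pd_mono hmono
  -- the new explosion times at `y0` and `x`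
  have hVy : V e' y0 ≤ q := (V_mono hmono y0).trans hy0
  have hVx : V e' x ≤ q + q := (V_tri e' x y0).trans (add_le_add ((pd_le_edge e' x y0).trans hle) hVy)
  have hVxκ : V e' x < κ := lt_of_le_of_lt (hVx.trans le_self_add) h2q
  have hVyκ : V e' y0 < κ := lt_of_le_of_lt hVy hqκ
  -- the finite set
  set B := bl e x κ with hB
  have hBf : B.Finite := finite_of_lt (hκε.trans hεx)
  refine ⟨{u | ∃ w ∈ B, e' w u ≠ ⊤}, exit_finite hLF' hBf, ?_⟩
  refine (hinf.sdiff hBf).mono ?_
  rintro z ⟨hz, hzB⟩
  change pd e x z + ENNReal.ofReal ε < V e z at hz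
  have hdz : pd e x z ≠ ⊤ := by
    intro h; rw [h, top_add] at hz; exact not_top_lt hz
  have hzB' : κ < pd e x z := not_le.1 hzB
  have hsz : pd e z x = pd e x z := pd_symm hsym z x
  have hd't : pd e' z x ≠ ⊤ := ne_top_of_le_ne_top (by rw [hsz]; exact hdz) (hpd' z x)
  have hd'le : pd e' z x ≤ pd e x z := by rw [← hsz]; exact hpd' z x
  -- `V' z`
  have hVz2 : V e' z ≤ pd e' z x + V e' x := V_tri e' z x
  have hVzt : V e' z ≠ ⊤ := ne_top_of_le_ne_top (ENNReal.add_ne_top.2 ⟨hd't, ne_top_of_lt hVxκ⟩) hVz2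
  have hVz1 : pd e' z x + V e' x ≤ V e' z := by
    have h1 := V_mod_ge' hmod z
    rcases min_le_iff.1 h1 with h2 | h2
    · exfalso
      have h3 : V e z ≤ pd e x z + (q + q) := h2.trans (hVz2.trans (add_le_add hd'le hVx))
      have h4 : pd e x z + (q + q) ≤ pd e x z + ENNReal.ofReal ε := by
        gcongr
        exact le_trans (le_trans le_self_add le_self_add) h3q
      exact absurd hz (not_lt.2 (h3.trans h4))
    · exact h2
  have hVzκ : κ ≤ V e' z := by
    refine le_trans (le_min ?_ (le_min ?_ ?_)) (V_mod_ge hmod z)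
    · exact (hκε.le.trans le_add_self).trans hz.le
    · rw [hsz]; exact hzB'.le
    · by_contra hc
      push Not at hc
      have h1 : V e z ≤ κ + q := (V_tri e z y0).trans (add_le_add hc.le hy0)
      exact absurd (lt_of_le_of_lt le_add_self hz) (not_lt.2 (h1.trans hκq.le))
  refine ⟨?_, ?_⟩
  · -- nonempty
    have h1 : pd e' z x < pd e' z x + δ := ENNReal.lt_add_right hd't hδ0
    obtain ⟨u, w, hu, hw, huw⟩ := split h1 (fun a => κ ≤ V e' a) hVzκ (not_le.2 hVxκ)
    refine ⟨u, hu, w, not_le.1 hw, ?_⟩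
    calc pd e' z u + e' u w + V e' w ≤ pd e' z u + e' u w + (pd e' w x + V e' x) := by
          gcongr; exact V_tri e' w x
      _ = (pd e' z u + e' u w + pd e' w x) + V e' x := by ring
      _ ≤ (pd e' z x + δ) + V e' x := by gcongr
      _ = (pd e' z x + V e' x) + δ := by ring
      _ ≤ V e' z + δ := by gcongr
  · -- contained in the finite set
    rintro u ⟨hu, w, hw, huw⟩
    have hst : V e' z + δ ≠ ⊤ := ENNReal.add_ne_top.2 ⟨hVzt, hδt⟩
    have hst2 : pd e' z u + e' u w + V e' w ≠ ⊤ := ne_top_of_le_ne_top hst huw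
    have hut : pd e' z u ≠ ⊤ := by
      intro h; rw [h] at hst2; simp at hst2
    have hewt : e' u w ≠ ⊤ := by
      intro h; rw [h] at hst2; simp at hst2
    refine ⟨w, ?_, by rw [hsym']; exact hewt⟩
    -- the path from `z` to `u` avoids the edge
    have h1 : pd e z u < pd e' z u + δ := by
      rcases mod_or hmod (ENNReal.lt_add_right hut hδ0) with h2 | h2
      · exact h2
      · exfalso
        have h3 : κ ≤ e' u w + V e' w :=
          hu.trans ((V_tri e' u w).trans (by gcongr; exact pd_le_edge e' u w))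
        have h4 : pd e' z x + κ ≤ pd e' z x + (V e' x + 2 * δ) := by
          calc pd e' z x + κ ≤ pd e' z x + (e' u w + V e' w) := by gcongr
            _ ≤ (pd e' z x + pd e' x u) + (e' u w + V e' w) := by gcongr; exact le_self_add
            _ ≤ (pd e' z u + δ) + (e' u w + V e' w) := by gcongr
            _ = (pd e' z u + e' u w + V e' w) + δ := by ring
            _ ≤ (V e' z + δ) + δ := by gcongr
            _ ≤ ((pd e' z x + V e' x) + δ) + δ := by gcongr
            _ = pd e' z x + (V e' x + 2 * δ) := by ring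
        have h5 : κ ≤ V e' x + 2 * δ := (ENNReal.add_le_add_iff_left hd't).1 h4
        exact absurd (lt_of_le_of_lt (add_le_add hVx le_rfl) h2q) (not_lt.2 h5)
    -- the edge from `u` to `w` is not the modified edge
    have h6 : e' u w = e u w := by
      apply hmod
      rintro (⟨h7, -⟩ | ⟨h7, -⟩)
      · rw [h7] at hu; exact absurd hVxκ (not_lt.2 hu)
      · rw [h7] at hu; exact absurd hVyκ (not_lt.2 hu)
    have h8 : pd e z w ≤ (pd e' z u + δ) + e' u w := by
      rw [h6]
      exact (pd_step e z u w).trans (by gcongr)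
    have hfin : ∀ X : ENNReal, pd e z w + V e' w ≤ X → True := fun _ _ => trivial
    have h9 : pd e z w + V e' w ≤ pd e x z + ((q + q) + 2 * δ) := by
      calc pd e z w + V e' w ≤ ((pd e' z u + δ) + e' u w) + V e' w := by gcongr
        _ = (pd e' z u + e' u w + V e' w) + δ := by ring
        _ ≤ (V e' z + δ) + δ := by gcongr
        _ ≤ ((pd e' z x + V e' x) + δ) + δ := by gcongr
        _ ≤ ((pd e x z + (q + q)) + δ) + δ := by gcongr
        _ = pd e x z + ((q + q) + 2 * δ) := by ring
    have h10 := V_mod_ge hmod w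
    rcases min_le_iff.1 h10 with h11 | h11
    · exfalso
      have h12 : V e z ≤ pd e x z + ENNReal.ofReal ε := by
        calc V e z ≤ pd e z w + V e w := V_tri e z w
          _ ≤ pd e z w + V e' w := by gcongr
          _ ≤ pd e x z + ((q + q) + 2 * δ) := h9
          _ ≤ pd e x z + ENNReal.ofReal ε := by
              gcongr; exact le_self_add.trans h3q
      exact absurd hz (not_lt.2 h12)
    · rcases min_le_iff.1 h11 with h13 | h13
      · show pd e x w ≤ κ
        rw [pd_symm hsym x w]
        exact h13.trans hw.le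
      · exfalso
        have h12 : V e z ≤ pd e x z + ENNReal.ofReal ε := by
          calc V e z ≤ pd e z w + V e w := V_tri e z w
            _ ≤ pd e z w + (pd e w y0 + V e y0) := by gcongr; exact V_tri e w y0
            _ ≤ pd e z w + (V e' w + q) := by gcongr
            _ = (pd e z w + V e' w) + q := by ring
            _ ≤ (pd e x z + ((q + q) + 2 * δ)) + q := by gcongr
            _ = pd e x z + ((q + q) + 2 * δ + q) := by ring
            _ ≤ pd e x z + ENNReal.ofReal ε := by gcongr
        exact absurd hz (not_lt.2 h12)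

end Pool.Agent.KS6_54.SFX
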