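import Pool.Agent.KS6_54.SFX.Meas
import Pool.Graph.R_seed8.W823.SFD.Final

set_option autoImplicit false

/-!
# Mass transport and resampling in scale-free percolation
-/

namespace Pool.Agent.KS6_54.SFX

open Pool.Agent.W823.SFD Pool.Agent.W823.SFP MeasureTheory

variable {d : ℕ} {α lam β : ℝ} {μW μL : Measure ℝ}

/-- The edge weights of scale-free percolation. -/
noncomputable def eo (α lam : ℝ) (ω : Conf d) : Site d → Site d → ENNReal :=
  ed α lam (fun _ _ => True) ω

theorem eo_symm (ω : Conf d) (x y : Site d) : eo α lam ω x y = eo α lam ω y x :=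
  ed_symm (fun _ _ => Iff.rfl) ω x y

theorem dL_eo (ω : Conf d) (x y : Site d) : dL α lam ω x y = pd (eo α lam ω) x y := dL_eq ω x y

theorem expl_eo (ω : Conf d) (x : Site d) : expl α lam ω x = V (eo α lam ω) x := by
  unfold expl tau V tu ball bl
  simp only [dL_eo]

theorem measurable_eo (x y : Site d) : Measurable fun ω : Conf d => eo α lam ω x y :=
  measurable_ed _ x y

/-! ### Translations -/

/-- The translation of the indices. -/
def shI (a : Site d) : Idx d ≃ Idx d where
  toFun := Sum.map (· + a) (Sum.map (Sym2.map (· + a)) (Sym2.map (· + a)))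
  invFun := Sum.map (· - a) (Sum.map (Sym2.map (· - a)) (Sym2.map (· - a)))
  left_inv := by
    rintro (x | p | p)
    · simp
    · simp [Sym2.map_map]
    · simp [Sym2.map_map]
  right_inv := by
    rintro (x | p | p)
    · simp
    · simp [Sym2.map_map]
    · simp [Sym2.map_map]

/-- The translated configuration. -/
def sh (a : Site d) (ω : Conf d) : Conf d := fun i => ω (shI a i)

theorem eo_sh (a : Site d) (ω : Conf d) :
    eo α lam (sh a ω) = fun x y => eo α lam ω ((Equiv.addRight a) x) ((Equiv.addRight a) y) := by
  funext x y
  have hj : Pool.Agent.W823.SFP.Joined α lam (sh a ω) x y ↔ Pool.Agent.W823.SFP.Joined α lam ω (x + a) (y + a) := by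
    unfold Pool.Agent.W823.SFP.Joined
    have h1 : x + a - (y + a) = x - y := by abel
    have h2 : mark (sh a ω) x y = mark ω (x + a) (y + a) := by
      simp [mark, sh, shI]
    have h3 : ∀ z, wt (sh a ω) z = wt ω (z + a) := fun z => by simp [wt, sh, shI]
    rw [h1, h2, h3, h3]
  have hc : cost (sh a ω) x y = cost ω (x + a) (y + a) := by
    simp [cost, sh, shI]
  simp only [Equiv.coe_addRight]
  unfold eo
  by_cases h : Pool.Agent.W823.SFP.Joined α lam (sh a ω) x y
  · rw [ed_of h trivial, ed_of (hj.1 h) trivial, hc]
  · have e1 : ed α lam (fun _ _ => True) (sh a ω) x y = ⊤ := by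
      unfold ed
      exact if_neg fun h' => h h'.1
    have e2 : ed α lam (fun _ _ => True) ω (x + a) (y + a) = ⊤ := by
      unfold ed
      exact if_neg fun h' => h (hj.2 h'.1)
    rw [e1, e2]

theorem map_sh (hW : IsProbabilityMeasure μW) (hL : IsProbabilityMeasure μL) (a : Site d) :
    (law d μW μL).map (sh a) = law d μW μL := by
  have hpr := prob_marg (d := d) hW hL
  refine map_reindex (marg (d := d) μW μL) (shI a) ?_
  rintro (x | p | p) <;> rfl

theorem measurable_sh (a : Site d) : Measurable (sh a) :=
  measurable_pi_lambda _ fun _ => measurable_pi_apply _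

theorem measure_Ev (hW : IsProbabilityMeasure μW) (hL : IsProbabilityMeasure μL)
    (κ δ : ENNReal) (F : Set (Site d)) (z : Site d) :
    law d μW μL (Ev (eo α lam) κ δ F z) =
      law d μW μL (Ev (eo α lam) κ δ ((Equiv.addRight z) ⁻¹' F) 0) := by
  have h1 : Ev (eo α lam) κ δ F z = sh z ⁻¹' Ev (eo α lam) κ δ ((Equiv.addRight z) ⁻¹' F) 0 := by
    ext ω
    unfold Ev
    simp only [Set.mem_preimage, Set.mem_ofPred_eq, eo_sh]
    have h2 : Cr (fun x y => eo α lam ω ((Equiv.addRight z) x) ((Equiv.addRight z) y)) κ δ 0 =
        (Equiv.addRight z) ⁻¹' Cr (eo α lam ω) κ δ z := by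
      rw [Cr_relabel]
      simp
    rw [h2, (Equiv.addRight z).surjective.preimage_subset_preimage_iff,
      (Equiv.addRight z).surjective.nonempty_preimage]
  rw [h1, ← Measure.map_apply (measurable_sh z) (measurableSet_Ev measurable_eo κ δ _ 0),
    map_sh hW hL]

/-- Mass transport: for every finite set `F` only finitely many sites `z` have a nonempty set
`Cr z` contained in `F`. -/
theorem ae_finite_Ev (hW : IsProbabilityMeasure μW) (hL : IsProbabilityMeasure μL)
    (κ δ : ENNReal) (F : Finset (Site d)) :
    ∀ᵐ ω ∂(law d μW μL), {z | ω ∈ Ev (eo α lam) κ δ (F : Set (Site d)) z}.Finite := by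
  apply ae_finite_setOfPred_mem
  have hms : ∀ z : Site d, MeasurableSet (Ev (eo α lam) κ δ
      ((Equiv.addRight z) ⁻¹' (F : Set (Site d))) 0) :=
    fun z => measurableSet_Ev measurable_eo κ δ _ 0
  have hpr : IsProbabilityMeasure (law d μW μL) := by
    have := prob_marg (d := d) hW hL
    unfold law
    infer_instance
  refine ne_top_of_le_ne_top (ENNReal.natCast_ne_top F.card) ?_
  calc ∑' z, law d μW μL (Ev (eo α lam) κ δ (F : Set (Site d)) z)
      = ∑' z, ∫⁻ ω, (Ev (eo α lam) κ δ ((Equiv.addRight z) ⁻¹' (F : Set (Site d))) 0).indicator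
          1 ω ∂(law d μW μL) := by
        congr 1
        funext z
        rw [measure_Ev hW hL, lintegral_indicator_one (hms z)]
    _ = ∫⁻ ω, ∑' z, (Ev (eo α lam) κ δ ((Equiv.addRight z) ⁻¹' (F : Set (Site d))) 0).indicator
          1 ω ∂(law d μW μL) := by
        rw [lintegral_tsum]
        exact fun z => (measurable_one.indicator (hms z)).aemeasurable
    _ ≤ ∫⁻ _, (F.card : ENNReal) ∂(law d μW μL) := by
        refine lintegral_mono fun ω => ?_
        classical
        by_cases hne : (Cr (eo α lam ω) κ δ 0).Nonempty
        · obtain ⟨u0, hu0⟩ := hne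
          set G : Finset (Site d) := F.image fun f => f - u0 with hG
          calc ∑' z, (Ev (eo α lam) κ δ ((Equiv.addRight z) ⁻¹' (F : Set (Site d))) 0).indicator
                (1 : Conf d → ENNReal) ω ≤ ∑' z, (if z ∈ G then (1 : ENNReal) else 0) := by
                refine ENNReal.tsum_le_tsum fun z => ?_
                by_cases hz : ω ∈ Ev (eo α lam) κ δ ((Equiv.addRight z) ⁻¹' (F : Set (Site d))) 0
                · have h1 : u0 + z ∈ F := by
                    have := hz.2 hu0
                    simpa using this
                  have h2 : z ∈ G := by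
                    rw [hG, Finset.mem_image]
                    exact ⟨u0 + z, h1, by abel⟩
                  rw [Set.indicator_of_mem hz, if_pos h2]
                  rfl
                · rw [Set.indicator_of_notMem hz]
                  exact zero_le
            _ = ∑ z ∈ G, (1 : ENNReal) := by
                rw [tsum_eq_sum (s := G)]
                · exact Finset.sum_congr rfl fun z hz => if_pos hz
                · intro z hz
                  exact if_neg hz
            _ = (G.card : ENNReal) := by simp
            _ ≤ (F.card : ENNReal) := by exact_mod_cast Finset.card_image_le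
        · have : ∀ z, (Ev (eo α lam) κ δ ((Equiv.addRight z) ⁻¹' (F : Set (Site d))) 0).indicator
                (1 : Conf d → ENNReal) ω = 0 := by
            intro z
            apply Set.indicator_of_notMem
            exact fun h => hne h.1
          rw [tsum_congr this, tsum_zero]
          exact zero_le
    _ = F.card := by simp

end Pool.Agent.KS6_54.SFX
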