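import Pool.Agent.KS6_54.SFX.Mtp

set_option autoImplicit false

/-!
# Resampling one edge
-/

namespace Pool.Agent.KS6_54.SFX

open Pool.Agent.W823.SFD Pool.Agent.W823.SFP MeasureTheory Filter

variable {d : ℕ} {α lam β : ℝ} {μW μL : Measure ℝ}

theorem eo_of_joined {ω : Conf d} {x y : Site d} (h : Pool.Agent.W823.SFP.Joined α lam ω x y) :
    eo α lam ω x y = ENNReal.ofReal (cost ω x y) := ed_of h trivial

theorem eo_of_not {ω : Conf d} {x y : Site d} (h : ¬ Pool.Agent.W823.SFP.Joined α lam ω x y) :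
    eo α lam ω x y = ⊤ := by
  unfold eo ed
  exact if_neg fun h' => h h'.1

theorem LF_eo {ω : Conf d} (h : ∀ x : Site d, {y | Pool.Agent.W823.SFP.Joined α lam ω x y}.Finite) :
    LF (eo α lam ω) := fun x => (h x).subset fun y hy => by
  by_contra hc
  exact hy (eo_of_not hc)

/-- The configuration in which the mark and the cost of the pair `{x, y}` are replaced. -/
noncomputable def rs (ω : Conf d) (x y : Site d) (s1 s2 : ℝ) : Conf d := by
  classical
  exact Function.update (Function.update ω (Sum.inr (Sum.inl s(x, y))) s1)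
    (Sum.inr (Sum.inr s(x, y))) s2

theorem wt_rs (ω : Conf d) (x y z : Site d) (s1 s2 : ℝ) : wt (rs ω x y s1 s2) z = wt ω z := by
  unfold wt rs
  rw [Function.update_of_ne (by simp), Function.update_of_ne (by simp)]

theorem mark_rs (ω : Conf d) (x y : Site d) (s1 s2 : ℝ) : mark (rs ω x y s1 s2) x y = s1 := by
  unfold mark rs
  rw [Function.update_of_ne (by simp), Function.update_self]

theorem cost_rs (ω : Conf d) (x y : Site d) (s1 s2 : ℝ) : cost (rs ω x y s1 s2) x y = s2 := by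
  unfold cost rs
  rw [Function.update_self]

theorem mark_rs_ne (ω : Conf d) {x y u w : Site d} (s1 s2 : ℝ) (h : s(u, w) ≠ s(x, y)) :
    mark (rs ω x y s1 s2) u w = mark ω u w := by
  unfold mark rs
  rw [Function.update_of_ne (by simp), Function.update_of_ne]
  intro hc
  exact h (Sum.inl_injective (Sum.inr_injective hc))

theorem cost_rs_ne (ω : Conf d) {x y u w : Site d} (s1 s2 : ℝ) (h : s(u, w) ≠ s(x, y)) :
    cost (rs ω x y s1 s2) u w = cost ω u w := by
  unfold cost rs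
  rw [Function.update_of_ne, Function.update_of_ne (by simp)]
  intro hc
  exact h (Sum.inr_injective (Sum.inr_injective hc))

theorem agree_rs (ω : Conf d) (x y : Site d) (s1 s2 : ℝ) :
    Agree (eo α lam ω) (eo α lam (rs ω x y s1 s2)) x y := by
  intro u w huw
  have hne : s(u, w) ≠ s(x, y) := by
    intro h
    apply huw
    rcases Sym2.eq_iff.1 h with ⟨h1, h2⟩ | ⟨h1, h2⟩
    · exact Or.inl ⟨h1, h2⟩
    · exact Or.inr ⟨h1, h2⟩
  have hj : Pool.Agent.W823.SFP.Joined α lam (rs ω x y s1 s2) u w ↔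
      Pool.Agent.W823.SFP.Joined α lam ω u w := by
    unfold Pool.Agent.W823.SFP.Joined
    rw [mark_rs_ne ω s1 s2 hne, wt_rs, wt_rs]
  by_cases h : Pool.Agent.W823.SFP.Joined α lam ω u w
  · rw [eo_of_joined h, eo_of_joined (hj.2 h), cost_rs_ne ω s1 s2 hne]
  · rw [eo_of_not h, eo_of_not fun h' => h (hj.1 h')]

/-- The probability that a pair is joined. -/
theorem joined_rs (hlam : 0 < lam) {ω : Conf d} (hw : ∀ z : Site d, 1 ≤ wt ω z) {x y : Site d}
    (hxy : x ≠ y) : ∃ p : ℝ, 0 < p ∧ p ≤ 1 ∧ ∀ s1 s2 : ℝ, s1 < p →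
      Pool.Agent.W823.SFP.Joined α lam (rs ω x y s1 s2) x y := by
  have h1 : 1 ≤ nrm (x - y) := one_le_nrm (sub_ne_zero.2 hxy)
  refine ⟨1 - Real.exp (-(lam * wt ω x * wt ω y / nrm (x - y) ^ α)), ?_, ?_, ?_⟩
  · have h2 : 0 < lam * wt ω x * wt ω y / nrm (x - y) ^ α := by
      have := hw x
      have := hw y
      have h3 : 0 < nrm (x - y) ^ α := Real.rpow_pos_of_pos (by linarith) _
      positivity
    have h3 := Real.exp_lt_exp.2
      (show -(lam * wt ω x * wt ω y / nrm (x - y) ^ α) < 0 by linarith)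
    rw [Real.exp_zero] at h3
    linarith
  · linarith [Real.exp_pos (-(lam * wt ω x * wt ω y / nrm (x - y) ^ α))]
  · intro s1 s2 hs
    unfold Pool.Agent.W823.SFP.Joined
    rcases eq_or_lt_of_le h1 with h2 | h2
    · left; exact h2.symm
    · right
      rw [mark_rs, wt_rs, wt_rs]
      exact ⟨h2, hs⟩

/-- Resampling one edge. -/
theorem ae_finite_pair (h : HypG d α lam β μW μL)
    (hloc : ∀ᵐ ω ∂(law d μW μL), ∀ x : Site d, {y | Pool.Agent.W823.SFP.Joined α lam ω x y}.Finite)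
    {x y0 : Site d} (hxy : x ≠ y0) {ε : ℝ} (hε : 0 < ε) :
    ∀ᵐ ω ∂(law d μW μL), ENNReal.ofReal ε < V (eo α lam ω) x →
      V (eo α lam ω) y0 ≤ ENNReal.ofReal (ε / 8) →
      {z | pd (eo α lam ω) x z + ENNReal.ofReal ε < V (eo α lam ω) z}.Finite := by
  classical
  have hpr := prob_marg (d := d) h.probW h.probL
  set κ := ENNReal.ofReal (ε / 2) with hκ
  set δ := ENNReal.ofReal (ε / 16) with hδ
  have hT : ∀ᵐ ω ∂(law d μW μL), LF (eo α lam ω) ∧ ∀ F : Finset (Site d),
      {z | ω ∈ Ev (eo α lam) κ δ (F : Set (Site d)) z}.Finite := by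
    have h2 : ∀ᵐ ω ∂(law d μW μL), ∀ F : Finset (Site d),
        {z | ω ∈ Ev (eo α lam) κ δ (F : Set (Site d)) z}.Finite := by
      rw [ae_all_iff]
      exact fun F => ae_finite_Ev h.probW h.probL κ δ F
    filter_upwards [hloc, h2] with ω h3 h4
    exact ⟨LF_eo h3, h4⟩
  have h1 := ae_resample (marg (d := d) μW μL) (Sum.inr (Sum.inr s(x, y0))) hT
  have h2 := ae_resample (marg (d := d) μW μL) (Sum.inr (Sum.inl s(x, y0))) h1
  filter_upwards [h2, ae_one_le' h.probW h.probL h.one] with ω hω hw hVx hVy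
  obtain ⟨p, hp0, hp1, hp⟩ := joined_rs (α := α) h.hlam hw hxy
  -- a good value of the mark
  have hfr : ∃ᵐ s1 ∂(marg (d := d) μW μL (Sum.inr (Sum.inl s(x, y0)))), s1 < p := by
    rw [frequently_ae_iff]
    have : (marg (d := d) μW μL (Sum.inr (Sum.inl s(x, y0)))) {a | a < p} = ENNReal.ofReal p :=
      unif_Iio p hp1
    rw [this]
    exact (ENNReal.ofReal_pos.2 hp0).ne'
  obtain ⟨s1, hs1, hs1'⟩ := (hfr.and_eventually hω).exists
  have hfr2 : ∃ᵐ s2 ∂(marg (d := d) μW μL (Sum.inr (Sum.inr s(x, y0)))), s2 ≤ ε / 8 := by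
    rw [frequently_ae_iff]
    exact (h.posL (ε / 8) (by positivity)).ne'
  obtain ⟨s2, hs2, hs2'⟩ := (hfr2.and_eventually hs1').exists
  have hconf : Function.update (Function.update ω (Sum.inr (Sum.inl s(x, y0))) s1)
      (Sum.inr (Sum.inr s(x, y0))) s2 = rs ω x y0 s1 s2 := rfl
  rw [hconf] at hs2'
  obtain ⟨hLF', hfin⟩ := hs2'
  have hJ := hp s1 s2 hs1
  have he' : eo α lam (rs ω x y0 s1 s2) x y0 ≤ ENNReal.ofReal (ε / 8) := by
    rw [eo_of_joined hJ, cost_rs]
    exact ENNReal.ofReal_le_ofReal hs2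
  have hag := agree_rs (α := α) (lam := lam) ω x y0 s1 s2
  -- the old weight of the pair is not small
  have hold : ENNReal.ofReal (ε / 8) ≤ eo α lam ω x y0 := by
    by_contra hc
    push Not at hc
    have h3 : V (eo α lam ω) x ≤ ENNReal.ofReal (ε / 8) + ENNReal.ofReal (ε / 8) :=
      (V_tri _ x y0).trans (add_le_add ((pd_le_edge _ x y0).trans hc.le) hVy)
    rw [← ENNReal.ofReal_add (by positivity) (by positivity)] at h3
    have h4 : ENNReal.ofReal (ε / 8 + ε / 8) ≤ ENNReal.ofReal ε := ENNReal.ofReal_le_ofReal (by linarith)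
    exact absurd hVx (not_lt.2 (h3.trans h4))
  have hmono : ∀ u w, eo α lam (rs ω x y0 s1 s2) u w ≤ eo α lam ω u w := by
    intro u w
    by_cases hm : (u = x ∧ w = y0) ∨ (u = y0 ∧ w = x)
    · rcases hm with ⟨rfl, rfl⟩ | ⟨rfl, rfl⟩
      · exact he'.trans hold
      · rw [eo_symm _ u w, eo_symm _ u w]
        exact he'.trans hold
    · exact (hag u w hm).le
  by_contra hcon
  obtain ⟨F, hF, hFi⟩ := main_det hε (fun a b => eo_symm ω a b) (fun a b => eo_symm _ a b) hLF' hVx hVy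
    hag he' hmono hcon
  refine hFi ((hfin hF.toFinset).subset ?_)
  rintro z ⟨h3, h4⟩
  refine ⟨h3, ?_⟩
  rw [Set.Finite.coe_toFinset]
  exact h4

/-- Almost surely, for every `x` and every `ε > 0` only finitely many sites `z` have an explosion
time larger than the distance to `x` plus `ε`. -/
theorem ae_claimA (h : HypG d α lam β μW μL)
    (hloc : ∀ᵐ ω ∂(law d μW μL), ∀ x : Site d, {y | Pool.Agent.W823.SFP.Joined α lam ω x y}.Finite) :
    ∀ᵐ ω ∂(law d μW μL), ∀ (x : Site d) (ε : {q : ℚ // 0 < q}), V (eo α lam ω) x ≠ ⊤ →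
      {z | pd (eo α lam ω) x z + ENNReal.ofReal (ε.1 : ℝ) < V (eo α lam ω) z}.Finite := by
  have key : ∀ᵐ ω ∂(law d μW μL), ∀ (x y0 : Site d) (ε : {q : ℚ // 0 < q}), x ≠ y0 →
      ENNReal.ofReal (ε.1 : ℝ) < V (eo α lam ω) x →
      V (eo α lam ω) y0 ≤ ENNReal.ofReal ((ε.1 : ℝ) / 8) →
      {z | pd (eo α lam ω) x z + ENNReal.ofReal (ε.1 : ℝ) < V (eo α lam ω) z}.Finite := by
    rw [ae_all_iff]; intro x
    rw [ae_all_iff]; intro y0
    rw [ae_all_iff]; intro ε
    by_cases hxy : x = y0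
    · filter_upwards with ω hc
      exact absurd hxy hc
    · have hε : (0 : ℝ) < (ε.1 : ℝ) := by exact_mod_cast ε.2
      filter_upwards [ae_finite_pair h hloc hxy hε] with ω hω _
      exact hω
  filter_upwards [key, hloc] with ω hω hl x ε hV
  have hε : (0 : ℝ) < (ε.1 : ℝ) := by exact_mod_cast ε.2
  by_cases hc : V (eo α lam ω) x ≤ ENNReal.ofReal (ε.1 : ℝ)
  · rw [trivial_case (fun a b => eo_symm ω a b) hc]
    exact Set.finite_empty
  · push Not at hc
    have h1 : ENNReal.ofReal ((ε.1 : ℝ) / 8) < V (eo α lam ω) x :=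
      lt_of_le_of_lt (ENNReal.ofReal_le_ofReal (by linarith)) hc
    obtain ⟨w, hw, hVw⟩ := exists_small (LF_eo hl) (ENNReal.ofReal_pos.2 (by positivity)) h1 hV
    exact hω x w ε hw.symm hc hVw

/-- The lower bound for the distances. -/
theorem ae_lower (h : HypG d α lam β μW μL)
    (hloc : ∀ᵐ ω ∂(law d μW μL), ∀ x : Site d, {y | Pool.Agent.W823.SFP.Joined α lam ω x y}.Finite)
    (hfin : ∀ᵐ ω ∂(law d μW μL), ∀ x : Site d, V (eo α lam ω) x ≠ ⊤) :
    ∀ᵐ ω ∂(law d μW μL), ∀ (x : Site d) (ε : ℝ), 0 < ε →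
      {y | dL α lam ω x y + ENNReal.ofReal ε < expl α lam ω x + expl α lam ω y}.Finite := by
  filter_upwards [ae_claimA h hloc, hloc, hfin] with ω hω hl hf x ε hε
  obtain ⟨q, hq0, hq1⟩ := exists_rat_btwn (show (0 : ℝ) < ε / 3 by positivity)
  have hq : (0 : ℚ) < q := by exact_mod_cast hq0
  have h1 := lower_det (LF_eo hl) (x := x) (ε := ENNReal.ofReal (q : ℝ)) (ENNReal.ofReal_pos.2 hq0)
    ENNReal.ofReal_ne_top (hf x) (fun w => hω w ⟨q, hq⟩ (hf w))
  refine h1.subset fun y hy => ?_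
  change dL α lam ω x y + ENNReal.ofReal ε < expl α lam ω x + expl α lam ω y at hy
  rw [dL_eo, expl_eo, expl_eo] at hy
  refine lt_of_le_of_lt ?_ hy
  gcongr
  rw [show (3 : ENNReal) = ENNReal.ofReal 3 by simp, ← ENNReal.ofReal_mul (by norm_num)]
  exact ENNReal.ofReal_le_ofReal (by linarith)

end Pool.Agent.KS6_54.SFX
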